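import Mathlib

/-!
Faces of polytopes (convex hulls of finite sets) in a finite dimensional inner product space.
Faces are the nonempty exposed subsets.
-/

set_option autoImplicit false

open Set Module

namespace Pool.Agent.H27.Content

section
variable {E : Type*} [NormedAddCommGroup E] [InnerProductSpace ℝ E] [FiniteDimensional ℝ E]

theorem exposed_eq {P F : Set E} (h : IsExposed ℝ P F) (hne : F.Nonempty) :
    ∃ (l : E →L[ℝ] ℝ) (M : ℝ), (∀ y ∈ P, l y ≤ M) ∧ F = {x ∈ P | l x = M} := by
  obtain ⟨l, hl⟩ := h hne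
  obtain ⟨x0, hx0⟩ := hne
  have hx0' : x0 ∈ {x ∈ P | ∀ y ∈ P, l y ≤ l x} := hl ▸ hx0
  refine ⟨l, l x0, hx0'.2, ?_⟩
  rw [hl]
  ext x
  constructor
  · rintro ⟨hx, hx'⟩
    exact ⟨hx, le_antisymm (hx0'.2 x hx) (hx' x0 hx0'.1)⟩
  · rintro ⟨hx, hx'⟩
    exact ⟨hx, fun y hy => hx' ▸ hx0'.2 y hy⟩

theorem exposed_of_max {P : Set E} (l : E →L[ℝ] ℝ) (M : ℝ) (hM : ∀ y ∈ P, l y ≤ M) :
    IsExposed ℝ P {x ∈ P | l x = M} := by
  rintro ⟨w, hw, hwM⟩
  refine ⟨l, ?_⟩
  ext x
  constructor
  · rintro ⟨hx, hx'⟩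
    exact ⟨hx, fun y hy => hx' ▸ hM y hy⟩
  · rintro ⟨hx, hx'⟩
    exact ⟨hx, le_antisymm (hM x hx) (hwM ▸ hx' w hw)⟩

/-- A face of a polytope is the convex hull of the vertices it contains. -/
theorem face_eq_hull (S : Finset E) {F : Set E} (hF : IsExposed ℝ (convexHull ℝ (S : Set E)) F) :
    F = convexHull ℝ (F ∩ (S : Set E)) := by
  have hfin : (F ∩ (S : Set E)).Finite := S.finite_toSet.inter_of_right F
  have hPc : IsCompact (convexHull ℝ (S : Set E)) := S.finite_toSet.isCompact_convexHull ℝ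
  have hFc : IsCompact F := hF.isCompact hPc
  have hFconv : Convex ℝ F := hF.convex (convex_convexHull ℝ _)
  apply Subset.antisymm
  · have h1 : closure (convexHull ℝ (F.extremePoints ℝ)) = F :=
      closure_convexHull_extremePoints hFc hFconv
    have h2 : F.extremePoints ℝ ⊆ F ∩ (S : Set E) := by
      intro x hx
      refine ⟨extremePoints_subset hx, ?_⟩
      have := hF.isExtreme.extremePoints_subset_extremePoints hx
      exact extremePoints_convexHull_subset this
    have h3 : IsClosed (convexHull ℝ (F ∩ (S : Set E))) := hfin.isClosed_convexHull ℝ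
    calc F = closure (convexHull ℝ (F.extremePoints ℝ)) := h1.symm
      _ ⊆ convexHull ℝ (F ∩ (S : Set E)) := closure_minimal (convexHull_mono h2) h3
  · exact convexHull_min inter_subset_left hFconv

theorem finite_faces (S : Finset E) :
    {F : Set E | IsExposed ℝ (convexHull ℝ (S : Set E)) F}.Finite := by
  have h : {F : Set E | IsExposed ℝ (convexHull ℝ (S : Set E)) F} ⊆
      (fun T : Set E => convexHull ℝ T) '' (𝒫 (S : Set E)) := by
    intro F hF
    exact ⟨F ∩ S, inter_subset_right, (face_eq_hull S hF).symm⟩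
  exact (S.finite_toSet.finite_subsets.image _).subset h

/-- A face is cut out by its affine span. -/
theorem face_eq_inter_span {P F : Set E} (hF : IsExposed ℝ P F) (hne : F.Nonempty) :
    F = P ∩ (affineSpan ℝ F : Set E) := by
  obtain ⟨l, M, hM, hFe⟩ := exposed_eq hF hne
  apply Subset.antisymm
  · exact fun x hx => ⟨hF.subset hx, subset_affineSpan ℝ F hx⟩
  · rintro x ⟨hx, hx'⟩
    rw [hFe]
    refine ⟨hx, ?_⟩
    have hsub : F ⊆ ((AffineSubspace.mk' (hne.some) (LinearMap.ker l.toLinearMap) :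
        AffineSubspace ℝ E) : Set E) := by
      intro y hy
      have h1 : y ∈ {x ∈ P | l x = M} := hFe ▸ hy
      have h2 : hne.some ∈ {x ∈ P | l x = M} := hFe ▸ hne.some_mem
      simp only [SetLike.mem_coe, AffineSubspace.mem_mk']
      simp [h1.2, h2.2]
    have h3 := affineSpan_le.2 hsub hx'
    simp only [AffineSubspace.mem_mk'] at h3
    have h2 : hne.some ∈ {x ∈ P | l x = M} := hFe ▸ hne.some_mem
    have h4 : l x - l hne.some = 0 := by simpa using h3
    linarith [h2.2]

/-- The direction of a face. -/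
noncomputable abbrev dir (F : Set E) : Submodule ℝ E := (affineSpan ℝ F).direction

theorem face_eq_of_dir_le {P F G : Set E} (hF : IsExposed ℝ P F) (hG : IsExposed ℝ P G)
    {a : E} (haF : a ∈ F) (haG : a ∈ G) (hd : dir F ≤ dir G) : F ⊆ G := by
  intro x hx
  rw [face_eq_inter_span hG ⟨a, haG⟩]
  refine ⟨hF.subset hx, ?_⟩
  have h1 : x -ᵥ a ∈ dir F :=
    AffineSubspace.vsub_mem_direction (subset_affineSpan ℝ F hx) (subset_affineSpan ℝ F haF)
  have h2 := hd h1
  have h3 := AffineSubspace.vadd_mem_of_mem_direction h2 (subset_affineSpan ℝ G haG)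
  simpa using h3

theorem face_eq_of_dir_eq {P F G : Set E} (hF : IsExposed ℝ P F) (hG : IsExposed ℝ P G)
    {a : E} (haF : a ∈ F) (haG : a ∈ G) (hd : dir F = dir G) : F = G :=
  Subset.antisymm (face_eq_of_dir_le hF hG haF haG hd.le)
    (face_eq_of_dir_le hG hF haG haF hd.ge)

theorem dir_mono {F G : Set E} (h : F ⊆ G) : dir F ≤ dir G :=
  AffineSubspace.direction_le (affineSpan_mono ℝ h)

theorem dir_lt {P F G : Set E} (hF : IsExposed ℝ P F) (hG : IsExposed ℝ P G)
    (hne : F.Nonempty) (h : F ⊆ G) (hFG : F ≠ G) : finrank ℝ (dir F) < finrank ℝ (dir G) := by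
  obtain ⟨a, ha⟩ := hne
  apply Submodule.finrank_lt_finrank_of_lt
  refine lt_of_le_of_ne (dir_mono h) fun hd => hFG ?_
  exact face_eq_of_dir_eq hF hG ha (h ha) hd

/-- A face of a face of a polytope is a face. -/
theorem face_trans (S : Finset E) {F F' : Set E}
    (hF : IsExposed ℝ (convexHull ℝ (S : Set E)) F) (hF' : IsExposed ℝ F F') :
    IsExposed ℝ (convexHull ℝ (S : Set E)) F' := by
  intro hne'
  have hne : F.Nonempty := hne'.mono hF'.subset
  obtain ⟨l, M, hM, hFe⟩ := exposed_eq hF hne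
  obtain ⟨l', M', hM', hFe'⟩ := exposed_eq hF' hne'
  -- choose `N` large
  obtain ⟨N, hN0, hN⟩ : ∃ N : ℝ, 0 < N ∧ ∀ s ∈ S, l s < M → N * l s + l' s < N * M + M' := by
    have h : ∀ s ∈ S, ∃ N0 : ℝ, ∀ N : ℝ, N0 ≤ N → l s < M → N * l s + l' s < N * M + M' := by
      intro s _
      by_cases hs : l s < M
      · refine ⟨(l' s - M' + 1) / (M - l s), fun N hN _ => ?_⟩
        have h1 : 0 < M - l s := by linarith
        rw [div_le_iff₀ h1] at hN
        nlinarith
      · exact ⟨0, fun N _ h => absurd h hs⟩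
    choose! f hf using h
    obtain ⟨N1, hN1⟩ := (S.finite_toSet.image f).bddAbove
    refine ⟨max N1 1, lt_of_lt_of_le one_pos (le_max_right _ _), fun s hs hlt => ?_⟩
    exact hf s hs _ ((hN1 ⟨s, hs, rfl⟩).trans (le_max_left _ _)) hlt
  set L : E →L[ℝ] ℝ := N • l + l' with hL
  have hLv : ∀ x, L x = N * l x + l' x := fun x => by simp [hL]
  -- values on vertices
  have hvert : ∀ s ∈ (S : Set E), L s ≤ N * M + M' := by
    intro s hs
    have hsP : s ∈ convexHull ℝ (S : Set E) := subset_convexHull ℝ _ hs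
    rw [hLv]
    rcases (hM s hsP).lt_or_eq with h | h
    · exact (hN s hs h).le
    · have hsF : s ∈ F := by rw [hFe]; exact ⟨hsP, h⟩
      have := hM' s hsF
      rw [h]; linarith
  have hmax : ∀ x ∈ convexHull ℝ (S : Set E), L x ≤ N * M + M' := by
    intro x hx
    have hc : Convex ℝ {x | L x ≤ N * M + M'} :=
      convex_halfSpace_le L.toLinearMap.isLinear _
    exact convexHull_min (fun s hs => hvert s hs) hc hx
  have key : F' = {x ∈ convexHull ℝ (S : Set E) | L x = N * M + M'} := by
    apply Subset.antisymm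
    · intro x hx
      have h1 : x ∈ {x ∈ F | l' x = M'} := hFe' ▸ hx
      have h2 : x ∈ {x ∈ convexHull ℝ (S : Set E) | l x = M} := hFe ▸ h1.1
      refine ⟨h2.1, ?_⟩
      rw [hLv, h2.2, h1.2]
    · -- the exposed face of `L` is the hull of its vertices, which all lie in `F'`
      have hexp := exposed_of_max (P := convexHull ℝ (S : Set E)) L (N * M + M') hmax
      have hF'c : Convex ℝ F' := hF'.convex (hF.convex (convex_convexHull ℝ _))
      rw [face_eq_hull S hexp]
      refine convexHull_min ?_ hF'c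
      rintro s ⟨⟨hsP, hsL⟩, hs⟩
      rw [hLv] at hsL
      have h1 : l s = M := by
        by_contra hne
        have h2 := hN s hs (lt_of_le_of_ne (hM s hsP) hne)
        linarith
      have hsF : s ∈ F := by rw [hFe]; exact ⟨hsP, h1⟩
      rw [hFe']
      refine ⟨hsF, ?_⟩
      rw [h1] at hsL
      linarith
  have := exposed_of_max (P := convexHull ℝ (S : Set E)) L (N * M + M') hmax
  rw [← key] at this
  exact this hne'

theorem interior_nonempty_of_vectorSpan {W : Type*} [NormedAddCommGroup W] [NormedSpace ℝ W]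
    [FiniteDimensional ℝ W] {C : Set W} (hC : Convex ℝ C) (hne : C.Nonempty)
    (h : vectorSpan ℝ C = ⊤) : (interior C).Nonempty := by
  rw [hC.interior_nonempty_iff_affineSpan_eq_top]
  exact (AffineSubspace.affineSpan_eq_top_iff_vectorSpan_eq_top_of_nonempty ℝ W W hne).2 h

/-- Moving from a point of a polytope face in a direction parallel to the face, one
meets a proper subface. -/
theorem exit_face (S : Finset E) {G : Set E} (hG : IsExposed ℝ (convexHull ℝ (S : Set E)) G)
    {g v : E} (hg : g ∈ G) (hv : v ∈ dir G) (hv0 : v ≠ 0) :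
    ∃ t : ℝ, ∃ F' : Set E, IsExposed ℝ (convexHull ℝ (S : Set E)) F' ∧ F' ⊆ G ∧ F' ≠ G ∧
      g + t • v ∈ F' := by
  have hPc : IsCompact (convexHull ℝ (S : Set E)) := S.finite_toSet.isCompact_convexHull ℝ
  have hGc : IsCompact G := hG.isCompact hPc
  have hGconv : Convex ℝ G := hG.convex (convex_convexHull ℝ _)
  -- the greatest `t`
  have hcont : Continuous (fun t : ℝ => g + t • v) := by fun_prop
  have hclosed : IsClosed {t : ℝ | g + t • v ∈ G} := hGc.isClosed.preimage hcont
  have hbdd : BddAbove {t : ℝ | g + t • v ∈ G} := by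
    obtain ⟨R, hR⟩ := hGc.isBounded.exists_norm_le
    refine ⟨(R + ‖g‖) / ‖v‖, fun t ht => ?_⟩
    have hvpos : 0 < ‖v‖ := norm_pos_iff.2 hv0
    rw [le_div_iff₀ hvpos]
    have h1 := hR _ ht
    have h2 : t * ‖v‖ ≤ ‖t • v‖ := by
      rw [norm_smul]
      exact mul_le_mul_of_nonneg_right (le_abs_self t) hvpos.le
    have h3 : ‖t • v‖ ≤ ‖g + t • v‖ + ‖g‖ := by
      have := norm_sub_le (g + t • v) g
      simpa using this
    linarith
  have hne : {t : ℝ | g + t • v ∈ G}.Nonempty := ⟨0, by simpa using hg⟩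
  obtain ⟨t, ht, htmax⟩ : ∃ t : ℝ, g + t • v ∈ G ∧ ∀ t', g + t' • v ∈ G → t' ≤ t :=
    ⟨sSup _, hclosed.csSup_mem hne hbdd, fun t' ht' => le_csSup hbdd ht'⟩
  -- the face as a convex body in its direction
  set V : Submodule ℝ E := dir G with hV
  set G' : Set V := {u : V | g + (u : E) ∈ G} with hG'
  have hG'conv : Convex ℝ G' := by
    intro a ha b hb x y hx hy hxy
    have := hGconv ha hb hx hy hxy
    simp only [hG', mem_ofPred_eq] at *
    convert this using 1
    simp only [Submodule.coe_add, Submodule.coe_smul, smul_add]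
    have : g = x • g + y • g := by rw [← add_smul, hxy, one_smul]
    nth_rewrite 1 [this]
    abel
  have hmem : ∀ y ∈ G, y - g ∈ V := fun y hy =>
    AffineSubspace.vsub_mem_direction (subset_affineSpan ℝ G hy) (subset_affineSpan ℝ G hg)
  have hG'ne : G'.Nonempty := ⟨0, by simpa [hG'] using hg⟩
  have hspan : vectorSpan ℝ G' = ⊤ := by
    have hinj : Function.Injective (Submodule.map V.subtype) :=
      Submodule.map_injective_of_injective V.injective_subtype
    apply hinj
    let f : V →ᵃ[ℝ] E := V.subtype.toAffineMap + AffineMap.const ℝ V g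
    have hf : ∀ u : V, f u = (u : E) + g := fun u => rfl
    have hfl : f.linear = V.subtype := by
      ext u; simp [f]
    have h1 : f '' G' = G := by
      ext y
      constructor
      · rintro ⟨u, hu, rfl⟩
        rw [hf, add_comm]; exact hu
      · intro hy
        refine ⟨⟨y - g, hmem y hy⟩, ?_, ?_⟩
        · simpa [hG'] using hy
        · rw [hf]; simp
    rw [← hfl, AffineMap.map_vectorSpan, h1, ← direction_affineSpan, hfl]
    rw [Submodule.map_subtype_top]
  have hint := interior_nonempty_of_vectorSpan hG'conv hG'ne hspan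
  -- exit point is not interior
  set x : V := t • ⟨v, hv⟩ with hx
  have hxnot : x ∉ interior G' := by
    intro hxi
    have hc : Continuous (fun r : ℝ => x + r • (⟨v, hv⟩ : V)) := by fun_prop
    have hmem' : {r : ℝ | x + r • (⟨v, hv⟩ : V) ∈ interior G'} ∈ nhds (0 : ℝ) := by
      apply (isOpen_interior.preimage hc).mem_nhds
      rw [mem_preimage, zero_smul, add_zero]
      exact hxi
    obtain ⟨ε, hε, hball⟩ := Metric.mem_nhds_iff.1 hmem'
    have h1 : ε / 2 ∈ Metric.ball (0 : ℝ) ε := by
      simp [abs_of_pos hε]; linarith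
    have h2 := interior_subset (hball h1)
    have h3 : g + (t + ε / 2) • v ∈ G := by
      have : g + ((x + (ε / 2) • (⟨v, hv⟩ : V) : V) : E) ∈ G := h2
      simpa [hx, add_smul] using this
    have := htmax _ h3
    linarith
  obtain ⟨f, hf⟩ := geometric_hahn_banach_open_point hG'conv.interior isOpen_interior hxnot
  have hfle : ∀ a ∈ G', f a ≤ f x := by
    intro a ha
    apply closure_minimal (fun y hy => (hf y hy).le) <| isClosed_Iic.preimage f.continuous
    rw [hG'conv.closure_interior_eq_closure_of_nonempty_interior hint]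
    exact subset_closure ha
  set l : E →L[ℝ] ℝ := f.comp (V.orthogonalProjectionOnto) with hl
  have hlv : ∀ u : V, l (u : E) = f u := by
    intro u
    simp [hl]
  have hly : ∀ y (hy : y ∈ G), l y = f ⟨y - g, hmem y hy⟩ + l g := by
    intro y hy
    have h1 : l (y - g) = f ⟨y - g, hmem y hy⟩ := hlv ⟨y - g, hmem y hy⟩
    rw [← h1, map_sub]; ring
  have hmax : ∀ y ∈ G, l y ≤ l (g + t • v) := by
    intro y hy
    rw [hly y hy, hly _ ht]
    have h1 : (⟨g + t • v - g, hmem _ ht⟩ : V) = x := by
      ext; simp [hx]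
    rw [h1]
    have h2 : (⟨y - g, hmem y hy⟩ : V) ∈ G' := by simpa [hG'] using hy
    linarith [hfle _ h2]
  have hexp := exposed_of_max (P := G) l (l (g + t • v)) hmax
  refine ⟨t, {y ∈ G | l y = l (g + t • v)}, face_trans S hG hexp, fun y hy => hy.1, ?_, ht, rfl⟩
  intro heq
  obtain ⟨a, ha⟩ := hint
  have haG' : a ∈ G' := interior_subset ha
  have haG : g + (a : E) ∈ G := haG'
  have h2 : l (g + (a : E)) = l (g + t • v) := by
    have h1 : g + (a : E) ∈ {y ∈ G | l y = l (g + t • v)} := heq.symm ▸ haG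
    exact h1.2
  rw [map_add, map_add, hlv a] at h2
  have h3 : l (t • v) = f x := by
    have := hlv x
    simpa [hx] using this
  have h4 := hf a ha
  linarith

end

end Pool.Agent.H27.Content
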