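import Mathlib

/-!
Volume of a compact set and its shadow: Fubini along a direction.
-/

set_option autoImplicit false

namespace Pool.Agent.H27.Content

open MeasureTheory Set

noncomputable section

variable {n : ℕ}

/-- projection along `v` onto the coordinate hyperplane `x_j = 0`. -/
def pr (j : Fin (n + 1)) (v : Fin (n + 1) → ℝ) : (Fin (n + 1) → ℝ) →ₗ[ℝ] (Fin n → ℝ) :=
  LinearMap.pi fun i => LinearMap.proj (j.succAbove i) - (v (j.succAbove i) / v j) •
    LinearMap.proj j

lemma pr_apply (j : Fin (n + 1)) (v x : Fin (n + 1) → ℝ) (i : Fin n) :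
    pr j v x i = x (j.succAbove i) - v (j.succAbove i) / v j * x j := by
  simp [pr]

lemma pr_self {j : Fin (n + 1)} {v : Fin (n + 1) → ℝ} (hv : v j ≠ 0) : pr j v v = 0 := by
  funext i
  rw [pr_apply]
  field_simp
  simp

lemma eq_smul_of_pr {j : Fin (n + 1)} {v x : Fin (n + 1) → ℝ} (hv : v j ≠ 0)
    (hx : pr j v x = 0) : x = (x j / v j) • v := by
  funext k
  rcases Fin.eq_self_or_eq_succAbove j k with rfl | ⟨i, rfl⟩
  · simp only [Pi.smul_apply, smul_eq_mul]; field_simp
  · have := congrFun hx i
    rw [pr_apply, Pi.zero_apply] at this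
    simp only [Pi.smul_apply, smul_eq_mul]
    field_simp at this ⊢
    linarith

lemma volume_le_chord {K : Set (Fin (n + 1) → ℝ)} (hK : IsCompact K) (j : Fin (n + 1))
    (v : Fin (n + 1) → ℝ) (ℓ : ℝ)
    (h : ∀ x ∈ K, ∀ x' ∈ K, pr j v x = pr j v x' → |x j - x' j| ≤ ℓ) :
    volume K ≤ ENNReal.ofReal ℓ * volume (pr j v '' K) := by
  set w : Fin n → ℝ := fun i => v (j.succAbove i) / v j with hw
  let Φ : (Fin (n + 1) → ℝ) → ℝ × (Fin n → ℝ) := fun x => (x j, pr j v x)
  have hΦinj : Function.Injective Φ := by
    intro x x' hxx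
    have h1 : x j = x' j := congrArg Prod.fst hxx
    have h2 : pr j v x = pr j v x' := congrArg Prod.snd hxx
    funext k
    rcases Fin.eq_self_or_eq_succAbove j k with rfl | ⟨i, rfl⟩
    · exact h1
    · have := congrFun h2 i
      rw [pr_apply, pr_apply, h1] at this
      linarith
  have hprc : Continuous (pr j v) := (pr j v).continuous_of_finiteDimensional
  have hΦc : Continuous Φ := (continuous_apply j).prodMk hprc
  have hΦmp : MeasurePreserving Φ volume (volume.prod volume) := by
    have e1 := volume_preserving_piFinSuccAbove (fun _ : Fin (n + 1) => ℝ) j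
    have e2 : MeasurePreserving (fun p : ℝ × (Fin n → ℝ) => (p.1, p.2 + (-p.1) • w))
        (volume.prod volume) (volume.prod volume) := by
      refine MeasurePreserving.skew_product (f := fun t : ℝ => t)
        (g := fun (t : ℝ) (y : Fin n → ℝ) => y + (-t) • w)
        (MeasurePreserving.id volume) ?_ ?_
      · exact (by fun_prop : Continuous fun p : ℝ × (Fin n → ℝ) => p.2 + (-p.1) • w).measurable
      · refine Filter.Eventually.of_forall fun t => ?_
        exact (measurePreserving_add_right volume ((-t) • w)).map_eq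
    have e3 := e2.comp e1
    have e4 : Φ = (fun p : ℝ × (Fin n → ℝ) => (p.1, p.2 + (-p.1) • w)) ∘
        (MeasurableEquiv.piFinSuccAbove (fun _ : Fin (n + 1) => ℝ) j) := by
      funext x
      refine Prod.ext rfl ?_
      funext i
      show pr j v x i = _
      rw [pr_apply]
      simp [hw, MeasurableEquiv.piFinSuccAbove, Fin.insertNthEquiv, Fin.removeNth]
      ring
    rw [e4]
    exact e3
  have hK2 : IsCompact (Φ '' K) := hK.image hΦc
  have hpK : IsCompact (pr j v '' K) := hK.image hprc
  have h1 : volume K = (volume.prod volume) (Φ '' K) := by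
    rw [← hΦmp.measure_preimage hK2.measurableSet.nullMeasurableSet,
      Set.preimage_image_eq _ hΦinj]
  rw [h1, Measure.prod_apply_symm hK2.measurableSet]
  calc ∫⁻ y : Fin n → ℝ, volume ((fun t : ℝ => (t, y)) ⁻¹' (Φ '' K))
      ≤ ∫⁻ y : Fin n → ℝ, (pr j v '' K).indicator (fun _ => ENNReal.ofReal ℓ) y := by
        apply lintegral_mono
        intro y
        by_cases hy : y ∈ pr j v '' K
        · rw [Set.indicator_of_mem hy]
          refine (Real.volume_le_diam _).trans ?_
          apply Metric.ediam_le
          rintro t ⟨x, hx, hxt⟩ t' ⟨x', hx', hxt'⟩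
          rw [edist_dist]
          apply ENNReal.ofReal_le_ofReal
          have e1 : x j = t := congrArg Prod.fst hxt
          have e2 : x' j = t' := congrArg Prod.fst hxt'
          have e3 : pr j v x = y := congrArg Prod.snd hxt
          have e4 : pr j v x' = y := congrArg Prod.snd hxt'
          rw [Real.dist_eq, ← e1, ← e2]
          exact h x hx x' hx' (e3.trans e4.symm)
        · rw [Set.indicator_of_notMem hy]
          have : (fun t : ℝ => (t, y)) ⁻¹' (Φ '' K) = ∅ := by
            rw [Set.eq_empty_iff_forall_notMem]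
            rintro t ⟨x, hx, hxt⟩
            exact hy ⟨x, hx, congrArg Prod.snd hxt⟩
          show volume ((fun t : ℝ => (t, y)) ⁻¹' (Φ '' K)) ≤ 0
          rw [this]; simp
    _ = ENNReal.ofReal ℓ * volume (pr j v '' K) := by
        rw [lintegral_indicator hpK.measurableSet, setLIntegral_const]

end

end Pool.Agent.H27.Content
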