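import Mathlib
import Pool.Agent.H27.Content.Chord

/-!
Coordinate projections of subspaces of `EuclideanSpace ℝ (Fin d)` and Hausdorff measures.
-/

set_option autoImplicit false

open Set Module MeasureTheory Measure
open scoped ENNReal NNReal

namespace Pool.Agent.H27.Content

variable {d : ℕ}

/-- coordinate projection -/
def cp {m : ℕ} (e : Fin m → Fin d) : EuclideanSpace ℝ (Fin d) →ₗ[ℝ] (Fin m → ℝ) where
  toFun x k := x (e k)
  map_add' x y := by ext k; simp
  map_smul' c x := by ext k; simp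

@[simp] theorem cp_apply {m : ℕ} (e : Fin m → Fin d) (x : EuclideanSpace ℝ (Fin d)) (k : Fin m) :
    cp e x k = x (e k) := rfl

theorem exists_coords (d m : ℕ) : ∃ C : ℝ, 0 ≤ C ∧
    ∀ U : Submodule ℝ (EuclideanSpace ℝ (Fin d)), finrank ℝ U = m →
      ∃ e : Fin m → Fin d, ∀ x ∈ U, ∀ j, |x j| ≤ C * ∑ k, |x (e k)| := by
  induction m with
  | zero =>
    refine ⟨0, le_rfl, fun U hU => ⟨Fin.elim0, fun x hx j => ?_⟩⟩
    have h : U = ⊥ := Submodule.finrank_eq_zero.1 hU
    rw [h, Submodule.mem_bot] at hx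
    simp [hx]
  | succ m ih =>
    obtain ⟨C, hC0, hC⟩ := ih
    refine ⟨C * (m + 1) + 1, by positivity, fun U hU => ?_⟩
    -- a nonzero vector of `U` and its largest coordinate
    have hUne : U ≠ ⊥ := by
      intro h
      rw [h, finrank_bot] at hU
      omega
    obtain ⟨y, hyU, hy0⟩ := Submodule.exists_mem_ne_zero_of_ne_bot hUne
    have hd : Nonempty (Fin d) := by
      by_contra h
      rw [not_nonempty_iff] at h
      exact hy0 (Subsingleton.elim _ _)
    obtain ⟨e0, he0⟩ := Finite.exists_max (fun j : Fin d => |y j|)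
    have hye : y e0 ≠ 0 := by
      intro h
      apply hy0
      ext j
      have := he0 j
      rw [h, abs_zero] at this
      simpa using abs_nonpos_iff.1 this
    -- the subspace where the coordinate vanishes
    let φ : EuclideanSpace ℝ (Fin d) →ₗ[ℝ] ℝ :=
      { toFun := fun x => x e0
        map_add' := fun x y => by simp
        map_smul' := fun c x => by simp }
    have hφ : ∀ x, φ x = x e0 := fun x => rfl
    set ψ : U →ₗ[ℝ] ℝ := φ.domRestrict U with hψ
    have hψr : LinearMap.range ψ = ⊤ := by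
      rw [LinearMap.range_eq_top]
      intro r
      refine ⟨(r / y e0) • ⟨y, hyU⟩, ?_⟩
      rw [map_smul]
      simp only [hψ, LinearMap.domRestrict_apply, hφ, smul_eq_mul]
      field_simp
    have hker : finrank ℝ (LinearMap.ker ψ) = m := by
      have h1 := LinearMap.finrank_range_add_finrank_ker ψ
      rw [hψr, finrank_top, hU] at h1
      simp at h1
      omega
    set U' : Submodule ℝ (EuclideanSpace ℝ (Fin d)) := (LinearMap.ker ψ).map U.subtype with hU'
    have hU'f : finrank ℝ U' = m := by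
      rw [hU', ← hker]
      exact Submodule.finrank_map_subtype_eq U (LinearMap.ker ψ)
    obtain ⟨e, he⟩ := hC U' hU'f
    refine ⟨Fin.cons e0 e, fun x hx j => ?_⟩
    rw [Fin.sum_univ_succ]
    simp only [Fin.cons_zero, Fin.cons_succ]
    set r : ℝ := x e0 / y e0 with hr
    have hx' : x - r • y ∈ U' := by
      refine ⟨⟨x - r • y, U.sub_mem hx (U.smul_mem _ hyU)⟩, ?_, rfl⟩
      simp only [SetLike.mem_coe, LinearMap.mem_ker, hψ, LinearMap.domRestrict_apply, hφ]
      simp [hr, hye]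
    have hry : ∀ i, |r * y i| ≤ |x e0| := by
      intro i
      rw [hr, abs_mul, abs_div, div_mul_eq_mul_div, div_le_iff₀ (abs_pos.2 hye)]
      exact mul_le_mul_of_nonneg_left (he0 i) (abs_nonneg _)
    have h1 := he _ hx' j
    have h2 : |x j| ≤ |(x - r • y) j| + |x e0| := by
      have : x j = (x - r • y) j + r * y j := by simp
      rw [this]
      exact (abs_add_le _ _).trans (add_le_add le_rfl (hry j))
    have h3 : ∑ k, |(x - r • y) (e k)| ≤ ∑ k, |x (e k)| + m * |x e0| := by
      have : ∀ k, |(x - r • y) (e k)| ≤ |x (e k)| + |x e0| := by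
        intro k
        have h4 : (x - r • y) (e k) = x (e k) - r * y (e k) := by simp
        rw [h4]
        exact (abs_sub _ _).trans (add_le_add le_rfl (hry _))
      calc ∑ k, |(x - r • y) (e k)| ≤ ∑ k, (|x (e k)| + |x e0|) :=
            Finset.sum_le_sum fun k _ => this k
        _ = _ := by rw [Finset.sum_add_distrib]; simp
    have h4 : 0 ≤ ∑ k, |x (e k)| := Finset.sum_nonneg fun _ _ => abs_nonneg _
    have h5 : 0 ≤ |x e0| := abs_nonneg _
    have h6 := mul_le_mul_of_nonneg_left h3 hC0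
    have h7 : 0 ≤ (m : ℝ) := Nat.cast_nonneg m
    nlinarith [mul_nonneg hC0 h4, mul_nonneg hC0 h5, mul_nonneg (mul_nonneg hC0 h4) h7,
      mul_nonneg (mul_nonneg hC0 h5) h7]

theorem norm_cp_le {m : ℕ} (e : Fin m → Fin d) (x : EuclideanSpace ℝ (Fin d)) :
    ‖cp e x‖ ≤ ‖x‖ := by
  rw [pi_norm_le_iff_of_nonneg (norm_nonneg x)]
  intro k
  exact PiLp.norm_apply_le x (e k)

theorem norm_le_sum (x : EuclideanSpace ℝ (Fin d)) : ‖x‖ ≤ ∑ j, |x j| := by
  rw [EuclideanSpace.norm_eq]
  apply Real.sqrt_le_iff.2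
  refine ⟨Finset.sum_nonneg fun _ _ => abs_nonneg _, ?_⟩
  have := Finset.sum_sq_le_sq_sum_of_nonneg (s := Finset.univ) (f := fun j => |x j|)
    (fun _ _ => abs_nonneg _)
  simpa using this

/-- measure of a set which is a graph over its coordinate projection -/
theorem hausdorff_le_volume {m : ℕ} (e : Fin m → Fin d) {C : ℝ} (hC : 0 ≤ C)
    {G : Set (EuclideanSpace ℝ (Fin d))}
    (h : ∀ x ∈ G, ∀ y ∈ G, ∀ j, |(x - y) j| ≤ C * ∑ k, |(x - y) (e k)|) :
    μH[(m : ℝ)] G ≤ ENNReal.ofReal (d * (C * m)) ^ m * volume (cp e '' G) := by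
  classical
  rcases G.eq_empty_or_nonempty with rfl | hGne
  · simp
  have hb : ∀ x ∈ G, ∀ y ∈ G, ‖x - y‖ ≤ (d * (C * m)) * ‖cp e x - cp e y‖ := by
    intro x hx y hy
    have h1 : ∀ k, |(x - y) (e k)| ≤ ‖cp e x - cp e y‖ := by
      intro k
      rw [← map_sub]
      have := norm_le_pi_norm (cp e (x - y)) k
      simpa using this
    calc ‖x - y‖ ≤ ∑ j, |(x - y) j| := norm_le_sum _
      _ ≤ ∑ j : Fin d, C * ∑ k, |(x - y) (e k)| := Finset.sum_le_sum fun j _ => h x hx y hy j
      _ = d * (C * ∑ k, |(x - y) (e k)|) := by simp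
      _ ≤ d * (C * ∑ k : Fin m, ‖cp e x - cp e y‖) := by
          gcongr with k; exact h1 k
      _ = (d * (C * m)) * ‖cp e x - cp e y‖ := by simp; ring
  have hκ : 0 ≤ d * (C * m) := by positivity
  have hinj : InjOn (cp e) G := by
    intro x hx y hy hxy
    have := hb x hx y hy
    rw [hxy, sub_self, norm_zero, mul_zero] at this
    exact sub_eq_zero.1 (norm_le_zero_iff.1 this)
  set σ := Function.invFunOn (cp e) G with hσ
  have hσ1 : ∀ x ∈ G, σ (cp e x) = x := fun x hx => hinj.leftInvOn_invFunOn hx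
  have hLip : LipschitzOnWith (Real.toNNReal (d * (C * m))) σ (cp e '' G) := by
    apply LipschitzOnWith.of_dist_le_mul
    rintro _ ⟨x, hx, rfl⟩ _ ⟨y, hy, rfl⟩
    rw [hσ1 x hx, hσ1 y hy, dist_eq_norm, dist_eq_norm, Real.coe_toNNReal _ hκ]
    exact hb x hx y hy
  have h1 := hLip.hausdorffMeasure_image_le (d := (m : ℝ)) (Nat.cast_nonneg m)
  have h2 : σ '' (cp e '' G) = G := by
    rw [← image_comp]
    have : ∀ x ∈ G, (σ ∘ cp e) x = x := hσ1
    ext x
    constructor
    · rintro ⟨y, hy, rfl⟩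
      rw [this y hy]; exact hy
    · intro hx
      exact ⟨x, hx, this x hx⟩
  rw [h2] at h1
  have h3 : (μH[(m : ℝ)] : Measure (Fin m → ℝ)) = volume := by
    have := hausdorffMeasure_pi_real (ι := Fin m)
    simpa using this
  rw [h3] at h1
  rw [ENNReal.rpow_natCast] at h1
  exact h1

theorem pr_norm_le {n : ℕ} (j : Fin (n+1)) (v : Fin (n+1) → ℝ) (hv : ∀ i, |v i| ≤ |v j|)
    (hvj : v j ≠ 0) (x : Fin (n+1) → ℝ) : ‖pr j v x‖ ≤ 2 * ‖x‖ := by
  rw [pi_norm_le_iff_of_nonneg (by positivity)]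
  intro i
  rw [pr_apply]
  have h1 : |x (j.succAbove i)| ≤ ‖x‖ := norm_le_pi_norm x _
  have h2 : |x j| ≤ ‖x‖ := norm_le_pi_norm x _
  have h3 : |v (j.succAbove i) / v j| ≤ 1 := by
    rw [abs_div, div_le_one (abs_pos.2 hvj)]
    exact hv _
  rw [Real.norm_eq_abs]
  calc |x (j.succAbove i) - v (j.succAbove i) / v j * x j|
      ≤ |x (j.succAbove i)| + |v (j.succAbove i) / v j * x j| := abs_sub _ _
    _ ≤ ‖x‖ + 1 * ‖x‖ := by
        rw [abs_mul]
        exact add_le_add h1 (mul_le_mul h3 h2 (abs_nonneg _) zero_le_one)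
    _ = 2 * ‖x‖ := by ring

/-- the shadow of a set has at most `2 ^ n` times its Hausdorff measure -/
theorem volume_shadow_le {n : ℕ} (e : Fin (n+1) → Fin d) (j : Fin (n+1)) (v : Fin (n+1) → ℝ)
    (hv : ∀ i, |v i| ≤ |v j|) (hvj : v j ≠ 0) (A : Set (EuclideanSpace ℝ (Fin d))) :
    volume (pr j v '' (cp e '' A)) ≤ 2 ^ n * μH[(n : ℝ)] A := by
  have hLip : LipschitzOnWith 2 (fun x => pr j v (cp e x)) A := by
    apply LipschitzOnWith.of_dist_le_mul
    intro x _ y _
    rw [dist_eq_norm, dist_eq_norm, ← map_sub, ← map_sub]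
    refine (pr_norm_le j v hv hvj _).trans ?_
    simpa using norm_cp_le e (x - y)
  have h1 := hLip.hausdorffMeasure_image_le (d := (n : ℝ)) (Nat.cast_nonneg n)
  have h3 : (μH[(n : ℝ)] : Measure (Fin n → ℝ)) = volume := by
    have := hausdorffMeasure_pi_real (ι := Fin n)
    simpa using this
  rw [h3, ENNReal.rpow_natCast] at h1
  rw [image_image]
  simpa using h1

/-- images of low dimensional sets are null -/
theorem volume_image_eq_zero {n : ℕ} (T : EuclideanSpace ℝ (Fin d) →ₗ[ℝ] (Fin n → ℝ))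
    (A : Set (EuclideanSpace ℝ (Fin d)))
    (h : (affineSpan ℝ A).direction.map T ≠ ⊤) : volume (T '' A) = 0 := by
  have h1 : T '' A ⊆ ((affineSpan ℝ (T '' A) : AffineSubspace ℝ (Fin n → ℝ)) : Set (Fin n → ℝ)) :=
    subset_affineSpan ℝ _
  refine measure_mono_null h1 (addHaar_affineSubspace _ _ ?_)
  intro htop
  apply h
  have h2 : (affineSpan ℝ (T '' A)).direction = (affineSpan ℝ A).direction.map T := by
    have h3 := AffineMap.map_vectorSpan (f := T.toAffineMap) (s := A)
    rw [direction_affineSpan, direction_affineSpan]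
    simpa using h3.symm
  rw [← h2, htop, AffineSubspace.direction_top]

end Pool.Agent.H27.Content
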