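import Mathlib

/-!
Maximal minors of point configurations in a compact convex set.
-/

set_option autoImplicit false

namespace Pool.Agent.H27.Content

open MeasureTheory Set

noncomputable section

variable {s : ℕ}

/-- minors of the difference vectors -/
def mnr (x0 : Fin s → ℝ) {m : ℕ} (x : Fin m → Fin s → ℝ) (J : Fin m → Fin s) : ℝ :=
  (Matrix.of fun i k => x i (J k) - x0 (J k) : Matrix (Fin m) (Fin m) ℝ).det

/-- `D` is the maximal `m`-minor over `K`. -/
def IsMaxMinor (K : Set (Fin s → ℝ)) (x0 : Fin s → ℝ) (m : ℕ) (D : ℝ) : Prop :=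
  (∀ x : Fin m → Fin s → ℝ, (∀ i, x i ∈ K) → ∀ J, |mnr x0 x J| ≤ D) ∧
    ∃ x : Fin m → Fin s → ℝ, (∀ i, x i ∈ K) ∧ ∃ J, |mnr x0 x J| = D

lemma exists_maxMinor {K : Set (Fin s → ℝ)} (hK : IsCompact K) {x0 : Fin s → ℝ}
    (hx0 : x0 ∈ K) (m : ℕ) (hm : m ≤ s) : ∃ D, IsMaxMinor K x0 m D := by
  by_cases hs : s = 0
  · subst hs
    have : m = 0 := by omega
    subst this
    refine ⟨1, fun x _ J => ?_, fun i => i.elim0, fun i => i.elim0, fun i => i.elim0, ?_⟩
    · simp [mnr]
    · simp [mnr]
  have : Nonempty (Fin s) := ⟨⟨0, by omega⟩⟩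
  have h1 : IsCompact ((Set.univ.pi fun _ : Fin m => K) ×ˢ (Set.univ : Set (Fin m → Fin s))) :=
    (isCompact_univ_pi fun _ => hK).prod isCompact_univ
  have h2 : ((Set.univ.pi fun _ : Fin m => K) ×ˢ
      (Set.univ : Set (Fin m → Fin s))).Nonempty :=
    ⟨(fun _ => x0, fun _ => Classical.arbitrary _), by
      refine ⟨?_, Set.mem_univ _⟩
      intro i _; exact hx0⟩
  have h3 : Continuous fun p : (Fin m → Fin s → ℝ) × (Fin m → Fin s) => |mnr x0 p.1 p.2| := by
    rw [continuous_prod_of_discrete_right]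
    intro J
    unfold mnr
    refine continuous_abs.comp (Continuous.matrix_det ?_)
    refine continuous_matrix fun i k => ?_
    simp only [Matrix.of_apply]
    fun_prop
  obtain ⟨⟨x, J⟩, hxJ, hmax⟩ := h1.exists_isMaxOn h2 h3.continuousOn
  refine ⟨|mnr x0 x J|, fun y hy J' => ?_, x, fun i => hxJ.1 i (Set.mem_univ _), J, rfl⟩
  exact hmax (show (y, J') ∈ _ from ⟨fun i _ => hy i, Set.mem_univ _⟩)

lemma maxMinor_pos {K : Set (Fin s → ℝ)} {x0 : Fin s → ℝ} (hx0 : x0 ∈ interior K) {m : ℕ}
    (hm : m ≤ s) {D : ℝ} (hD : IsMaxMinor K x0 m D) : 0 < D := by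
  obtain ⟨ε, hε, hball⟩ := Metric.isOpen_iff.1 isOpen_interior x0 hx0
  have hball' : Metric.ball x0 ε ⊆ K := hball.trans interior_subset
  set x : Fin m → Fin s → ℝ := fun i => x0 + Pi.single (Fin.castLE hm i) (ε / 2) with hx
  have hxK : ∀ i, x i ∈ K := by
    intro i
    apply hball'
    rw [Metric.mem_ball, dist_eq_norm, hx]
    simp only [add_sub_cancel_left]
    rw [Pi.norm_single, Real.norm_eq_abs, abs_of_pos (by positivity)]
    linarith
  have h1 := hD.1 x hxK (fun i => Fin.castLE hm i)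
  have h2 : mnr x0 x (fun i => Fin.castLE hm i) = (ε / 2) ^ m := by
    unfold mnr
    have : (Matrix.of fun i k => x i (Fin.castLE hm k) - x0 (Fin.castLE hm k) :
        Matrix (Fin m) (Fin m) ℝ) = Matrix.diagonal fun _ => ε / 2 := by
      ext i k
      simp only [Matrix.of_apply, hx, Pi.add_apply, add_sub_cancel_left, Matrix.diagonal_apply,
        Pi.single_apply]
      congr 1
      simp only [eq_iff_iff]
      constructor
      · intro h; exact (Fin.castLE_injective hm h).symm
      · rintro rfl; rfl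
    rw [this, Matrix.det_diagonal, Finset.prod_const, Finset.card_univ, Fintype.card_fin]
  rw [h2] at h1
  have : 0 < (ε / 2) ^ m := by positivity
  exact (this.trans_le (le_abs_self _)).trans_le h1

lemma minor_chord {K : Set (Fin s → ℝ)} {x0 : Fin s → ℝ} {m : ℕ} {D' : ℝ}
    (hD' : ∀ x : Fin (m + 1) → Fin s → ℝ, (∀ i, x i ∈ K) → ∀ J, |mnr x0 x J| ≤ D')
    {x : Fin m → Fin s → ℝ} (hx : ∀ i, x i ∈ K) (J : Fin m → Fin s)
    {a a' : Fin s → ℝ} (ha : a ∈ K) (ha' : a' ∈ K) (h0 : ∀ k, a (J k) = a' (J k)) (j : Fin s) :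
    |a j - a' j| * |mnr x0 x J| ≤ 2 * D' := by
  set X : (Fin s → ℝ) → Fin (m + 1) → Fin s → ℝ := fun z => Fin.cons z x with hX
  set J' : Fin (m + 1) → Fin s := Fin.cons j J with hJ'
  have hXK : ∀ z ∈ K, ∀ i, X z i ∈ K := by
    intro z hz i
    refine Fin.cases ?_ (fun i => ?_) i
    · simpa [hX] using hz
    · simpa [hX] using hx i
  have e1 : mnr x0 (X a) J' - mnr x0 (X a') J' = (a j - a' j) * mnr x0 x J := by
    unfold mnr
    rw [Matrix.det_succ_row_zero, Matrix.det_succ_row_zero, ← Finset.sum_sub_distrib,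
      Fin.sum_univ_succ]
    have hrest : ∀ k : Fin m,
        (-1 : ℝ) ^ ((k.succ : Fin (m + 1)) : ℕ) *
          (Matrix.of fun i k => X a i (J' k) - x0 (J' k) : Matrix _ _ ℝ) 0 k.succ *
          ((Matrix.of fun i k => X a i (J' k) - x0 (J' k) : Matrix _ _ ℝ).submatrix
            Fin.succ (k.succ).succAbove).det -
        (-1 : ℝ) ^ ((k.succ : Fin (m + 1)) : ℕ) *
          (Matrix.of fun i k => X a' i (J' k) - x0 (J' k) : Matrix _ _ ℝ) 0 k.succ *
          ((Matrix.of fun i k => X a' i (J' k) - x0 (J' k) : Matrix _ _ ℝ).submatrix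
            Fin.succ (k.succ).succAbove).det = 0 := by
      intro k
      have hsub : ((Matrix.of fun i k => X a i (J' k) - x0 (J' k) : Matrix _ _ ℝ).submatrix
            Fin.succ (k.succ).succAbove) =
          ((Matrix.of fun i k => X a' i (J' k) - x0 (J' k) : Matrix _ _ ℝ).submatrix
            Fin.succ (k.succ).succAbove) := by
        ext i l
        simp [hX]
      rw [hsub]
      simp only [Matrix.of_apply, hX, hJ', Fin.cons_zero, Fin.cons_succ, h0 k]
      ring
    rw [Finset.sum_eq_zero (fun k _ => hrest k), add_zero]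
    have hsub1 : ∀ z, ((Matrix.of fun i k => X z i (J' k) - x0 (J' k) : Matrix _ _ ℝ).submatrix
          Fin.succ (0 : Fin (m + 1)).succAbove) =
        (Matrix.of fun i k => x i (J k) - x0 (J k) : Matrix (Fin m) (Fin m) ℝ) := by
      intro z
      ext i l
      simp [hX, hJ']
    rw [hsub1, hsub1]
    simp only [Matrix.of_apply, hX, hJ', Fin.cons_zero, Fin.val_zero, pow_zero]
    ring
  rw [← abs_mul, ← e1]
  have e2 := abs_sub (mnr x0 (X a) J') (mnr x0 (X a') J')
  have e3 := hD' (X a) (hXK a ha) J'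
  have e4 := hD' (X a') (hXK a' ha') J'
  linarith

lemma minor_le_volume (hs : 0 < s) {K : Set (Fin s → ℝ)} (hKc : Convex ℝ K) (hK : IsCompact K)
    {x0 : Fin s → ℝ} (hx0 : x0 ∈ K) {x : Fin s → Fin s → ℝ} (hx : ∀ i, x i ∈ K)
    (J : Fin s → Fin s) : |mnr x0 x J| ≤ (s : ℝ) ^ s * (volume K).toReal := by
  by_cases h0 : mnr x0 x J = 0
  · rw [h0, abs_zero]; positivity
  have hJinj : Function.Injective J := by
    intro a b hab
    by_contra hne
    apply h0
    unfold mnr
    apply Matrix.det_zero_of_column_eq hne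
    intro i
    simp [hab]
  set e : Equiv.Perm (Fin s) := Equiv.ofBijective J (Finite.injective_iff_bijective.1 hJinj) with he
  set M : Matrix (Fin s) (Fin s) ℝ := Matrix.of fun i k => x i k - x0 k with hM
  have h1 : |mnr x0 x J| = |M.det| := by
    have : (Matrix.of fun i k => x i (J k) - x0 (J k) : Matrix (Fin s) (Fin s) ℝ)
        = M.submatrix (Equiv.refl _) e := by
      ext i k; simp [hM, he]
    unfold mnr
    rw [this, Matrix.abs_det_submatrix_equiv_equiv]
  rw [h1]
  set Q : Set (Fin s → ℝ) := Set.univ.pi fun _ => Set.Icc (0 : ℝ) (1 / s) with hQ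
  have hs' : (0 : ℝ) < s := by exact_mod_cast hs
  have hvolQ : volume Q = ENNReal.ofReal ((1 / s : ℝ) ^ s) := by
    rw [hQ, volume_pi_pi]
    simp only [Real.volume_Icc, sub_zero, Finset.prod_const, Finset.card_univ, Fintype.card_fin]
    rw [ENNReal.ofReal_pow (by positivity)]
  have hsub : (Matrix.toLin' M.transpose) '' Q ⊆ (fun z => x0 + z) ⁻¹' K := by
    rintro _ ⟨c, hc, rfl⟩
    rw [Set.mem_preimage]
    have hc0 : ∀ i, 0 ≤ c i := fun i => (hc i (Set.mem_univ _)).1
    have hc1 : ∑ i, c i ≤ 1 := by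
      calc ∑ i, c i ≤ ∑ _i : Fin s, (1 / s : ℝ) :=
            Finset.sum_le_sum fun i _ => (hc i (Set.mem_univ _)).2
        _ = 1 := by
            rw [Finset.sum_const, Finset.card_univ, Fintype.card_fin, nsmul_eq_mul]
            field_simp
    have hcomb : x0 + Matrix.toLin' M.transpose c
        = (1 - ∑ i, c i) • x0 + ∑ i, c i • x i := by
      funext k
      simp only [Matrix.toLin'_apply, Pi.add_apply, Matrix.mulVec, dotProduct,
        Matrix.transpose_apply, hM, Matrix.of_apply, Pi.smul_apply, smul_eq_mul,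
        Finset.sum_apply]
      have : ∑ i, (x i k - x0 k) * c i = ∑ i, c i * x i k - (∑ i, c i) * x0 k := by
        rw [Finset.sum_mul, ← Finset.sum_sub_distrib]
        exact Finset.sum_congr rfl fun i _ => by ring
      rw [this]; ring
    rw [hcomb]
    have hcv := hKc.sum_mem (t := (Finset.univ : Finset (Option (Fin s))))
      (w := fun o => o.elim (1 - ∑ i, c i) c) (z := fun o => o.elim x0 x)
      (by
        intro o _
        cases o with
        | none => simp; linarith
        | some i => simpa using hc0 i)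
      (by rw [Fintype.sum_option]; simp)
      (by
        intro o _
        cases o with
        | none => simpa using hx0
        | some i => simpa using hx i)
    rw [Fintype.sum_option] at hcv
    simpa using hcv
  have h2 : ENNReal.ofReal |M.det| * ENNReal.ofReal ((1 / s : ℝ) ^ s) ≤ volume K := by
    calc ENNReal.ofReal |M.det| * ENNReal.ofReal ((1 / s : ℝ) ^ s)
        = volume ((Matrix.toLin' M.transpose) '' Q) := by
          rw [Measure.addHaar_image_linearMap, hvolQ, LinearMap.det_toLin', Matrix.det_transpose]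
      _ ≤ volume ((fun z => x0 + z) ⁻¹' K) := measure_mono hsub
      _ = volume K := measure_preimage_add _ _ _
  rw [← ENNReal.ofReal_mul (abs_nonneg _)] at h2
  have h3 := (ENNReal.ofReal_le_iff_le_toReal hK.measure_lt_top.ne).1 h2
  have h4 : ((1 / s : ℝ) ^ s) * (s : ℝ) ^ s = 1 := by
    rw [← mul_pow]; field_simp; simp
  calc |M.det| = |M.det| * ((1 / s : ℝ) ^ s) * (s : ℝ) ^ s := by rw [mul_assoc, h4, mul_one]
    _ ≤ (volume K).toReal * (s : ℝ) ^ s := by
        apply mul_le_mul_of_nonneg_right h3; positivity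
    _ = _ := mul_comm _ _

end

end Pool.Agent.H27.Content
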