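import Pool.Agent.H27.Content.Chord
import Pool.Agent.H27.Content.Det

/-!
The inequality for one face.
-/

set_option autoImplicit false

namespace Pool.Agent.H27.Content

open MeasureTheory Set

noncomputable section

variable {n : ℕ}

lemma good_dir {K : Set (Fin (n + 1) → ℝ)} (hK : IsCompact K)
    {x0 : Fin (n + 1) → ℝ} {m : ℕ} {D D' : ℝ}
    (hD0 : 0 < D) (hD : IsMaxMinor K x0 m D)
    (hD' : IsMaxMinor K x0 (m + 1) D') {k : ℕ} (hk : k + m = n) (w : Fin k → Fin (n + 1) → ℝ)
    {ι : Type*} [Fintype ι] (u : ι → Fin (n + 1) → ℝ) (a : ι → ℝ)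
    (ha : ∀ A, 0 ≤ a A)
    (hcover : ∀ (j) (v : Fin (n + 1) → ℝ), (∀ i, |v i| ≤ |v j|) → v j ≠ 0 →
      volume (pr j v '' K) ≤ ENNReal.ofReal (∑ A with u A ⬝ᵥ v ≠ 0, a A)) :
    ∃ v : Fin (n + 1) → ℝ, (∀ l, w l ⬝ᵥ v = 0) ∧
      (volume K).toReal ≤ (2 * D' / D) * ∑ A with u A ⬝ᵥ v ≠ 0, a A := by
  obtain ⟨x, hx, J, hxJ⟩ := hD.2
  -- a nonzero vector orthogonal to everything needed
  let F : (Fin (n + 1) → ℝ) →ₗ[ℝ] (Fin k → ℝ) × (Fin m → ℝ) :=
    (LinearMap.pi fun l => dotProductBilin ℝ ℝ (w l)).prod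
      (LinearMap.pi fun l => LinearMap.proj (J l))
  have hker : LinearMap.ker F ≠ ⊥ := by
    apply LinearMap.ker_ne_bot_of_finrank_lt
    rw [Module.finrank_prod, Module.finrank_fintype_fun_eq_card,
      Module.finrank_fintype_fun_eq_card, Module.finrank_fintype_fun_eq_card]
    simp only [Fintype.card_fin]
    omega
  obtain ⟨v, hv, hv0⟩ := (Submodule.ne_bot_iff _).1 hker
  have hv1 : ∀ l, w l ⬝ᵥ v = 0 := by
    intro l
    have := congrFun (congrArg Prod.fst (LinearMap.mem_ker.1 hv)) l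
    simpa [F] using this
  have hv2 : ∀ l, v (J l) = 0 := by
    intro l
    have := congrFun (congrArg Prod.snd (LinearMap.mem_ker.1 hv)) l
    simpa [F] using this
  obtain ⟨j, hj⟩ := Finite.exists_max (fun i => |v i|)
  have hvj : v j ≠ 0 := by
    intro h0
    apply hv0
    funext i
    have := hj i
    rw [h0, abs_zero] at this
    exact abs_eq_zero.1 (le_antisymm this (abs_nonneg _))
  refine ⟨v, hv1, ?_⟩
  have h1 := volume_le_chord hK j v (2 * D' / D) (by
    intro y hy y' hy' hyy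
    rw [le_div_iff₀ hD0, ← hxJ]
    have hdiff : y - y' = ((y - y') j / v j) • v := by
      apply eq_smul_of_pr hvj
      rw [map_sub, hyy, sub_self]
    apply minor_chord (hD'.1) hx J hy hy'
    intro l
    have := congrFun hdiff (J l)
    simp only [Pi.sub_apply, Pi.smul_apply, smul_eq_mul, hv2 l, mul_zero] at this
    linarith)
  have h2 := h1.trans (mul_le_mul_right (hcover j v hj hvj) _)
  have hDD : 0 ≤ 2 * D' / D := by
    have : 0 ≤ D' := (abs_nonneg _).trans (hD'.1 hD'.2.choose hD'.2.choose_spec.1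
      (hD'.2.choose_spec.2.choose))
    positivity
  have hS : 0 ≤ ∑ A with u A ⬝ᵥ v ≠ 0, a A := Finset.sum_nonneg fun A _ => ha A
  rw [← ENNReal.ofReal_mul hDD] at h2
  have h3 := ENNReal.toReal_mono ENNReal.ofReal_ne_top h2
  rwa [ENNReal.toReal_ofReal (by positivity)] at h3

theorem face_ineq {K : Set (Fin (n + 1) → ℝ)} (hKc : Convex ℝ K) (hK : IsCompact K)
    (hint : (interior K).Nonempty) {ι : Type*} [Fintype ι] (u : ι → Fin (n + 1) → ℝ)
    (a : ι → ℝ) (ha : ∀ A, 0 ≤ a A) (x : ι → ℝ) (hx : ∀ A, 0 < x A)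
    (hcover : ∀ (j) (v : Fin (n + 1) → ℝ), (∀ i, |v i| ≤ |v j|) → v j ≠ 0 →
      volume (pr j v '' K) ≤ ENNReal.ofReal (∑ A with u A ⬝ᵥ v ≠ 0, a A)) :
    ∃ τ : Fin (n + 1) → ι, LinearIndependent ℝ (fun i => u (τ i)) ∧
      (∏ i, x (τ i)) * (volume K).toReal ^ n ≤
        (2 * (n + 1 : ℝ)) ^ (n + 1) * (∑ A, a A * x A) ^ (n + 1) := by
  classical
  obtain ⟨x0, hx0⟩ := hint
  have hx0K := interior_subset hx0
  have hDex : ∀ m : ℕ, ∃ D : ℝ, m ≤ n + 1 → IsMaxMinor K x0 m D := by
    intro m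
    by_cases hm : m ≤ n + 1
    · obtain ⟨D, hD⟩ := exists_maxMinor hK hx0K m hm
      exact ⟨D, fun _ => hD⟩
    · exact ⟨0, fun h => absurd h hm⟩
  choose D hD using hDex
  have hDpos : ∀ m ≤ n + 1, 0 < D m := fun m hm => maxMinor_pos hx0 hm (hD m hm)
  set V := (volume K).toReal with hV
  have hVpos : 0 < V := by
    apply ENNReal.toReal_pos
    · exact (MeasureTheory.Measure.measure_pos_of_nonempty_interior volume ⟨x0, hx0⟩).ne'
    · exact hK.measure_lt_top.ne
  set Y := ∑ A, a A * x A with hY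
  have hY0 : 0 ≤ Y := Finset.sum_nonneg fun A _ => mul_nonneg (ha A) (hx A).le
  -- the greedy tuple
  have hgreedy : ∀ m ≤ n + 1, ∃ τ : Fin m → ι, LinearIndependent ℝ (fun i => u (τ i)) ∧
      ∀ i : Fin m, ∀ A, u A ∉ Submodule.span ℝ ((fun l => u (τ l)) '' Set.Iio i) →
        x (τ i) ≤ x A := by
    intro m
    induction m with
    | zero => intro _; exact ⟨fun i => i.elim0, linearIndependent_empty_type, fun i => i.elim0⟩
    | succ m ih =>
      intro hm
      obtain ⟨τ, hτ1, hτ2⟩ := ih (by omega)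
      obtain ⟨v, hv1, hv2⟩ := good_dir hK (hDpos (n - m) (by omega)) (hD (n - m) (by omega))
        (hD (n - m + 1) (by omega)) (k := m) (by omega) (fun l => u (τ l)) u a ha hcover
      have hspan : ∀ A, u A ⬝ᵥ v ≠ 0 → u A ∉ Submodule.span ℝ (Set.range fun l => u (τ l)) := by
        intro A hA hmem
        apply hA
        have : Submodule.span ℝ (Set.range fun l => u (τ l)) ≤
            LinearMap.ker ((dotProductBilin ℝ ℝ).flip v) := by
          rw [Submodule.span_le]
          rintro _ ⟨l, rfl⟩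
          simpa using hv1 l
        simpa using this hmem
      have hne : (Finset.univ.filter fun A =>
          u A ∉ Submodule.span ℝ (Set.range fun l => u (τ l))).Nonempty := by
        by_contra hemp
        rw [Finset.not_nonempty_iff_eq_empty, Finset.filter_eq_empty_iff] at hemp
        have : ∑ A with u A ⬝ᵥ v ≠ 0, a A = 0 := by
          have h0 : (Finset.univ.filter fun A => u A ⬝ᵥ v ≠ 0) = ∅ := by
            rw [Finset.filter_eq_empty_iff]
            intro A _ hA
            exact hemp (Finset.mem_univ A) (hspan A hA)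
          rw [h0, Finset.sum_empty]
        rw [this, mul_zero] at hv2
        linarith
      obtain ⟨A, hA, hAmin⟩ := Finset.exists_min_image _ x hne
      have hA' := (Finset.mem_filter.1 hA).2
      refine ⟨Fin.snoc τ A, ?_, ?_⟩
      · have : (fun i : Fin (m + 1) => u ((Fin.snoc τ A : Fin (m + 1) → ι) i))
            = Fin.snoc (fun i => u (τ i)) (u A) := by
          funext i
          refine Fin.lastCases ?_ (fun i => ?_) i
          · simp
          · simp
        rw [this, linearIndependent_finSnoc]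
        exact ⟨hτ1, hA'⟩
      · intro i
        refine Fin.lastCases ?_ (fun i => ?_) i
        · intro B hB
          rw [Fin.snoc_last]
          apply hAmin
          refine Finset.mem_filter.2 ⟨Finset.mem_univ _, fun hmem => hB ?_⟩
          refine Submodule.span_mono ?_ hmem
          rintro _ ⟨l, rfl⟩
          exact ⟨Fin.castSucc l, Fin.castSucc_lt_last l, by simp⟩
        · intro B hB
          rw [Fin.snoc_castSucc]
          apply hτ2 i
          intro hmem
          apply hB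
          refine Submodule.span_mono ?_ hmem
          rintro _ ⟨l, hl, rfl⟩
          exact ⟨Fin.castSucc l, Fin.castSucc_lt_castSucc_iff.2 hl, by simp⟩
  obtain ⟨τ, hτ1, hτ2⟩ := hgreedy (n + 1) le_rfl
  refine ⟨τ, hτ1, ?_⟩
  have hstep : ∀ i : Fin (n + 1), V * x (τ i) ≤ (2 * (D (n - i + 1) / D (n - i))) * Y := by
    intro i
    have hi := i.2
    obtain ⟨v, hv1, hv2⟩ := good_dir hK (hDpos (n - i) (by omega)) (hD (n - i) (by omega))
      (hD (n - i + 1) (by omega)) (k := i) (by omega)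
      (fun l : Fin i => u (τ ⟨l, by omega⟩)) u a ha hcover
    have hspan : ∀ A, u A ⬝ᵥ v ≠ 0 → x (τ i) ≤ x A := by
      intro A hA
      apply hτ2 i
      intro hmem
      apply hA
      have : Submodule.span ℝ ((fun l => u (τ l)) '' Set.Iio i) ≤
          LinearMap.ker ((dotProductBilin ℝ ℝ).flip v) := by
        rw [Submodule.span_le]
        rintro _ ⟨l, hl, rfl⟩
        simpa using hv1 ⟨l, hl⟩
      simpa using this hmem
    have h1 : x (τ i) * ∑ A with u A ⬝ᵥ v ≠ 0, a A ≤ Y := by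
      rw [Finset.mul_sum, hY]
      refine (Finset.sum_le_sum (g := fun A => a A * x A) ?_).trans ?_
      · intro A hA
        rw [mul_comm]
        exact mul_le_mul_of_nonneg_left (hspan A (Finset.mem_filter.1 hA).2) (ha A)
      · exact Finset.sum_le_sum_of_subset_of_nonneg (Finset.filter_subset _ _)
          (fun A _ _ => mul_nonneg (ha A) (hx A).le)
    have hC : 0 ≤ 2 * D (n - i + 1) / D (n - i) := by
      have h1 := hDpos (n - i) (by omega)
      have h2 := hDpos (n - i + 1) (by omega)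
      positivity
    calc V * x (τ i) ≤ ((2 * D (n - i + 1) / D (n - i)) * ∑ A with u A ⬝ᵥ v ≠ 0, a A) *
          x (τ i) := mul_le_mul_of_nonneg_right hv2 (hx _).le
      _ = (2 * D (n - i + 1) / D (n - i)) * (x (τ i) * ∑ A with u A ⬝ᵥ v ≠ 0, a A) := by ring
      _ ≤ (2 * D (n - i + 1) / D (n - i)) * Y := mul_le_mul_of_nonneg_left h1 hC
      _ = _ := by ring
  have hprod : ∏ i : Fin (n + 1), (V * x (τ i)) ≤
      ∏ i : Fin (n + 1), ((2 * (D (n - i + 1) / D (n - i))) * Y) :=
    Finset.prod_le_prod (fun i _ => mul_nonneg hVpos.le (hx _).le) (fun i _ => hstep i)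
  have hD0 : D 0 = 1 := by
    obtain ⟨y, -, J, hyJ⟩ := (hD 0 (by omega)).2
    rw [← hyJ]
    simp [mnr]
  have htel : ∏ i : Fin (n + 1), (D (n - i + 1) / D (n - i)) = D (n + 1) := by
    rw [Fin.prod_univ_eq_prod_range (fun i => D (n - i + 1) / D (n - i)) (n + 1)]
    have h1 := Finset.prod_range_reflect (fun i => D (i + 1) / D i) (n + 1)
    have h2 : ∏ j ∈ Finset.range (n + 1), D (n + 1 - 1 - j + 1) / D (n + 1 - 1 - j)
        = ∏ i ∈ Finset.range (n + 1), (D (n - i + 1) / D (n - i)) := by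
      refine Finset.prod_congr rfl fun j _ => ?_
      simp
    rw [← h2, h1]
    have h3 : ∀ m ≤ n + 1, ∏ i ∈ Finset.range m, D (i + 1) / D i = D m / D 0 := by
      intro m hm
      induction m with
      | zero => simp [hD0]
      | succ m ih =>
        rw [Finset.prod_range_succ, ih (by omega)]
        have := hDpos m (by omega)
        field_simp
    rw [h3 (n + 1) le_rfl, hD0, div_one]
  rw [Finset.prod_mul_distrib, Finset.prod_mul_distrib, Finset.prod_mul_distrib, htel] at hprod
  simp only [Finset.prod_const, Finset.card_univ, Fintype.card_fin] at hprod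
  obtain ⟨y, hy, J, hyJ⟩ := (hD (n + 1) le_rfl).2
  have hDvol := minor_le_volume (Nat.succ_pos n) hKc hK hx0K hy J
  rw [hyJ] at hDvol
  have hfinal : V ^ (n + 1) * ∏ i, x (τ i) ≤
      V * ((2 * (n + 1 : ℝ)) ^ (n + 1) * Y ^ (n + 1)) := by
    calc V ^ (n + 1) * ∏ i, x (τ i) ≤ 2 ^ (n + 1) * D (n + 1) * Y ^ (n + 1) := hprod
      _ ≤ 2 ^ (n + 1) * (((n + 1 : ℕ) : ℝ) ^ (n + 1) * V) * Y ^ (n + 1) := by
          apply mul_le_mul_of_nonneg_right _ (by positivity)
          apply mul_le_mul_of_nonneg_left hDvol (by positivity)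
      _ = _ := by push_cast; rw [mul_pow]; ring
  have h6 : V * ((∏ i, x (τ i)) * V ^ n) ≤
      V * ((2 * (n + 1 : ℝ)) ^ (n + 1) * Y ^ (n + 1)) := by
    calc V * ((∏ i, x (τ i)) * V ^ n) = V ^ (n + 1) * ∏ i, x (τ i) := by ring
      _ ≤ _ := hfinal
  exact le_of_mul_le_mul_left h6 hVpos

end

end Pool.Agent.H27.Content
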