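import Pool.Agent.H27.Content.Poly

/-!
Factorisation form of the weighted joints theorem.
-/

set_option autoImplicit false

namespace Pool.Agent.H27.Content

open Finset

noncomputable section

variable {J L : Type*} [Fintype J] (inc : J → L → Prop) [∀ ℓ, DecidablePred (fun j => inc j ℓ)]

/-- the water level of the line `ℓ` for the heights `α` (shifted by `B`) -/
def lvl (N B : ℕ) (α : J → ℕ) (ℓ : L) : ℕ :=
  sInf {k : ℕ | N + 1 ≤ ∑ j with inc j ℓ, (k + α j - B)}

variable {inc} {N B : ℕ}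

lemma lvl_nonempty {α : J → ℕ} {ℓ : L} {j : J} (hj : inc j ℓ) :
    {k : ℕ | N + 1 ≤ ∑ j with inc j ℓ, (k + α j - B)}.Nonempty := by
  refine ⟨N + 1 + B, ?_⟩
  rw [Set.mem_ofPred_eq]
  calc N + 1 ≤ N + 1 + B + α j - B := by omega
    _ ≤ _ := Finset.single_le_sum (f := fun j => N + 1 + B + α j - B)
      (fun _ _ => Nat.zero_le _) (by simpa using hj)

lemma lvl_spec {α : J → ℕ} {ℓ : L} {j : J} (hj : inc j ℓ) :
    N + 1 ≤ ∑ j with inc j ℓ, (lvl inc N B α ℓ + α j - B) :=
  Nat.sInf_mem (lvl_nonempty hj)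

lemma lvl_le {α : J → ℕ} {ℓ : L} {k : ℕ} (hk : N + 1 ≤ ∑ j with inc j ℓ, (k + α j - B)) :
    lvl inc N B α ℓ ≤ k := Nat.sInf_le hk

lemma lvl_le_of {α : J → ℕ} {ℓ : L} {j : J} (hj : inc j ℓ) (hB : α j ≤ B) :
    lvl inc N B α ℓ + α j ≤ N + 1 + B := by
  have h1 : lvl inc N B α ℓ ≤ N + 1 + B - α j := by
    apply lvl_le
    calc N + 1 ≤ N + 1 + B - α j + α j - B := by omega
      _ ≤ _ := Finset.single_le_sum (f := fun j' => N + 1 + B - α j + α j' - B)
        (fun _ _ => Nat.zero_le _) (by simpa using hj)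
  omega

lemma lvl_pos {α : J → ℕ} {ℓ : L} {j : J} (hj : inc j ℓ) (hB : ∀ j, α j ≤ B) :
    1 ≤ lvl inc N B α ℓ := by
  by_contra h
  have h0 : lvl inc N B α ℓ = 0 := by omega
  have h1 := lvl_spec (N := N) (B := B) (α := α) hj
  rw [h0] at h1
  have h2 : ∑ j with inc j ℓ, (0 + α j - B) = 0 := by
    apply Finset.sum_eq_zero
    intro j _
    have := hB j
    omega
  omega

lemma sum_lvl_le {α : J → ℕ} {ℓ : L} {j : J} (hj : inc j ℓ) (hB : ∀ j, α j ≤ B) :
    ∑ j with inc j ℓ, (lvl inc N B α ℓ + α j - B + 1) ≤ N + 2 * Fintype.card J := by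
  have h1 := lvl_pos (N := N) hj hB
  have h2 : ∑ j with inc j ℓ, (lvl inc N B α ℓ - 1 + α j - B) ≤ N := by
    by_contra h
    push Not at h
    have := lvl_le (N := N) (B := B) (α := α) (ℓ := ℓ) (k := lvl inc N B α ℓ - 1) h
    omega
  calc ∑ j with inc j ℓ, (lvl inc N B α ℓ + α j - B + 1)
      ≤ ∑ j with inc j ℓ, ((lvl inc N B α ℓ - 1 + α j - B) + 2) := by
        apply Finset.sum_le_sum
        intro j _
        omega
    _ = ∑ j with inc j ℓ, (lvl inc N B α ℓ - 1 + α j - B) +
        (Finset.univ.filter fun j => inc j ℓ).card * 2 := by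
        rw [Finset.sum_add_distrib, Finset.sum_const, smul_eq_mul]
    _ ≤ N + 2 * Fintype.card J := by
        have := Finset.card_filter_le (Finset.univ : Finset J) (fun j => inc j ℓ)
        rw [Finset.card_univ] at this
        omega

lemma lvl_mono {α α' : J → ℕ} {ℓ : L} {j : J} (hj : inc j ℓ) (h : ∀ j, α j ≤ α' j) :
    lvl inc N B α' ℓ ≤ lvl inc N B α ℓ := by
  apply lvl_le
  refine (lvl_spec (N := N) (B := B) (α := α) hj).trans ?_
  apply Finset.sum_le_sum
  intro j _
  have := h j
  omega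

/-- The main combinatorial statement: factorisation for joints. -/
theorem joints {s : ℕ} (hs : 0 < s) [Fintype L] (p : J → Fin s → ℝ)
    (hp : Function.Injective p) (u : L → Fin s → ℝ)
    (hline : ∀ ℓ j j', inc j ℓ → inc j' ℓ → ∃ t : ℝ, p j' = p j + t • u ℓ)
    (lam : J → ℝ) (hlam : ∀ j, 0 < lam j) (hsum : ∑ j, lam j ≤ 1) :
    ∃ β : J → L → ℝ, (∀ j ℓ, 0 < β j ℓ) ∧ (∀ ℓ, ∑ j with inc j ℓ, β j ℓ ≤ s + 1) ∧
      ∀ j, ∀ τ : Fin s → L, (∀ i, inc j (τ i)) → LinearIndependent ℝ (fun i => u (τ i)) →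
        lam j ≤ ∏ i, β j (τ i) := by
  classical
  set q : ℕ := 2 * Fintype.card J + 1 with hq
  set N : ℕ := s * q with hN
  set B : ℕ := Fintype.card J * (N + 1) with hB
  set b : (J → ℕ) → J → L → ℕ := fun α j ℓ => lvl inc N B α ℓ + α j - B with hb
  set T : J → (Fin s → L) → Prop := fun j τ =>
    (∀ i, inc j (τ i)) ∧ LinearIndependent ℝ (fun i => u (τ i)) with hT
  -- admissible height functions
  set A : Finset (J → Fin (B + 1)) := Finset.univ.filter fun a =>
    ∀ j, (a j : ℕ) = 0 ∨ ∃ τ, T j τ ∧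
      ((∏ i, b (fun j => (a j : ℕ)) j (τ i) : ℕ) : ℝ) ≤ lam j * (q : ℝ) ^ s with hA
  have hAne : A.Nonempty := ⟨fun _ => 0, by simp [hA]⟩
  obtain ⟨a, haA, hamax⟩ := A.exists_max_image (fun a => ∑ j, (a j : ℕ)) hAne
  set α : J → ℕ := fun j => (a j : ℕ) with hα
  have hαB : ∀ j, α j ≤ B := fun j => Nat.lt_succ_iff.1 (a j).2
  have haA' : ∀ j, α j = 0 ∨ ∃ τ, T j τ ∧
      ((∏ i, b α j (τ i) : ℕ) : ℝ) ≤ lam j * (q : ℝ) ^ s := by
    have := (Finset.mem_filter.1 haA).2
    exact this
  -- no height is maximal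
  have hlt : ∀ j, α j < B := by
    intro j0
    by_contra hcon
    have hj0 : α j0 = B := le_antisymm (hαB j0) (by omega)
    -- an empty interval
    have hk : ∃ k < Fintype.card J, ∀ v, α v / (N + 1) ≠ k := by
      by_contra hno
      push Not at hno
      have h1 : Finset.range (Fintype.card J) ⊆
          (Finset.univ.erase j0).image (fun v => α v / (N + 1)) := by
        intro k hk
        obtain ⟨v, hv⟩ := hno k (Finset.mem_range.1 hk)
        refine Finset.mem_image.2 ⟨v, ?_, hv⟩
        refine Finset.mem_erase.2 ⟨?_, Finset.mem_univ _⟩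
        rintro rfl
        rw [hj0, hB, Nat.mul_div_cancel _ (Nat.succ_pos N)] at hv
        have := Finset.mem_range.1 hk
        omega
      have h2 := (Finset.card_le_card h1).trans Finset.card_image_le
      rw [Finset.card_range, Finset.card_erase_of_mem (Finset.mem_univ _), Finset.card_univ] at h2
      have h3 : 0 < Fintype.card J := Fintype.card_pos_iff.2 ⟨j0⟩
      omega
    obtain ⟨k, hkJ, hk⟩ := hk
    set U : Finset J := Finset.univ.filter fun j => k < α j / (N + 1) with hU
    have hUge : ∀ j ∈ U, (k + 1) * (N + 1) ≤ α j := by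
      intro j hj
      have h1 : k + 1 ≤ α j / (N + 1) := (Finset.mem_filter.1 hj).2
      exact (Nat.le_div_iff_mul_le (Nat.succ_pos N)).1 h1
    have hUlt : ∀ j, j ∉ U → α j < k * (N + 1) := by
      intro j hj
      have h1 : ¬ k < α j / (N + 1) := fun h => hj (Finset.mem_filter.2 ⟨Finset.mem_univ _, h⟩)
      have h2 : α j / (N + 1) < k := lt_of_le_of_ne (not_lt.1 h1) (hk j)
      exact (Nat.div_lt_iff_lt_mul (Nat.succ_pos N)).1 h2
    have hgap : ∀ j ∈ U, ∀ v, v ∉ U → α v + (N + 1) ≤ α j := by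
      intro j hj v hv
      have h1 := hUge j hj
      have h2 := hUlt v hv
      have : (k + 1) * (N + 1) = k * (N + 1) + (N + 1) := by ring
      omega
    have hj0U : j0 ∈ U := by
      refine Finset.mem_filter.2 ⟨Finset.mem_univ _, ?_⟩
      rw [hj0, hB, Nat.mul_div_cancel _ (Nat.succ_pos N)]
      exact hkJ
    have hτex : ∀ j : U, ∃ τ, T j τ ∧
        ((∏ i, b α j (τ i) : ℕ) : ℝ) ≤ lam j * (q : ℝ) ^ s := by
      intro j
      rcases haA' j with h0 | h0
      · exfalso
        have := hUge j j.2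
        have h2 : 0 < (k + 1) * (N + 1) := by positivity
        omega
      · exact h0
    choose τ hτT hτle using hτex
    have : Nonempty U := ⟨⟨j0, hj0U⟩⟩
    have hcount := poly_count (s := s) (J := U) (L := L) (fun j => p j)
      (fun x y hxy => Subtype.ext (hp hxy)) u (fun j ℓ => inc j ℓ)
      (fun ℓ j j' hj hj' => hline ℓ j j' hj hj')
      (fun j => (α j : ℤ)) (fun ℓ => (lvl inc N B α ℓ : ℤ) - B) τ
      (fun j i => (hτT j).1 i) (fun j => (hτT j).2) q (by
        intro j i
        have h1 := lvl_spec (N := N) (B := B) (α := α) ((hτT j).1 i)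
        refine h1.trans (le_of_eq ?_)
        rw [Finset.sum_filter, Finset.sum_filter]
        rw [← Finset.sum_subset (Finset.subset_univ U)]
        · rw [← Finset.sum_coe_sort U]
          refine Finset.sum_congr rfl fun x _ => ?_
          split_ifs
          · have : ((lvl inc N B α (τ j i) : ℤ) - B + (α x : ℤ))
                = ((lvl inc N B α (τ j i) + α x : ℕ) : ℤ) - (B : ℤ) := by push_cast; ring
            rw [this]
            omega
          · rfl
        · intro v _ hv
          split_ifs with hinc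
          · have h2 := lvl_le_of (N := N) (B := B) (α := α) ((hτT j).1 i) (hαB j)
            have h3 := hgap j j.2 v hv
            omega
          · rfl)
    have hfin : ((q + 1 : ℕ) : ℝ) ^ s ≤ (q : ℝ) ^ s := by
      calc ((q + 1 : ℕ) : ℝ) ^ s = (((q + 1) ^ s : ℕ) : ℝ) := by push_cast; rfl
        _ ≤ ((∑ j : U, ∏ i, ((lvl inc N B α (τ j i) : ℤ) - B + (α j : ℤ)).toNat : ℕ) : ℝ) := by
          exact_mod_cast hcount
        _ = ∑ j : U, ((∏ i, b α j (τ j i) : ℕ) : ℝ) := by
          rw [Nat.cast_sum]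
          refine Finset.sum_congr rfl fun j _ => ?_
          congr 1
          refine Finset.prod_congr rfl fun i _ => ?_
          simp only [hb]
          omega
        _ ≤ ∑ j : U, lam j * (q : ℝ) ^ s := Finset.sum_le_sum fun j _ => hτle j
        _ = (∑ j ∈ U, lam j) * (q : ℝ) ^ s := by
          rw [← Finset.sum_mul, Finset.sum_coe_sort U (fun j => lam j)]
        _ ≤ 1 * (q : ℝ) ^ s := by
          apply mul_le_mul_of_nonneg_right _ (by positivity)
          refine le_trans ?_ hsum
          exact Finset.sum_le_sum_of_subset_of_nonneg (Finset.subset_univ _)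
            (fun j _ _ => (hlam j).le)
        _ = (q : ℝ) ^ s := one_mul _
    have h5 : (q : ℝ) ^ s < ((q + 1 : ℕ) : ℝ) ^ s := by
      apply pow_lt_pow_left₀ _ (by positivity) hs.ne'
      push_cast; linarith
    linarith
  -- raising one height
  have hraise : ∀ j, ∀ τ, T j τ → lam j * (q : ℝ) ^ s < ((∏ i, (b α j (τ i) + 1) : ℕ) : ℝ) := by
    intro j τ hτ
    set a' : J → Fin (B + 1) := Function.update a j ⟨α j + 1, by have := hlt j; omega⟩ with ha'
    set α' : J → ℕ := fun j => (a' j : ℕ) with hα'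
    have hα'j : α' j = α j + 1 := by simp [hα', ha']
    have hα'ne : ∀ j', j' ≠ j → α' j' = α j' := by
      intro j' hj'
      simp [hα', ha', Function.update_of_ne hj', hα]
    have hle : ∀ j', α j' ≤ α' j' := by
      intro j'
      by_cases h : j' = j
      · subst h; omega
      · rw [hα'ne j' h]
    have hnot : a' ∉ A := by
      intro hmem
      have h1 := hamax a' hmem
      have h2 : ∑ j', (a j' : ℕ) < ∑ j', (a' j' : ℕ) := by
        apply Finset.sum_lt_sum (fun j' _ => hle j')
        exact ⟨j, Finset.mem_univ _, by show α j < α' j; omega⟩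
      exact absurd h1 (not_le.2 h2)
    have hnot' : ∃ j', α' j' ≠ 0 ∧ ∀ τ, T j' τ →
        lam j' * (q : ℝ) ^ s < ((∏ i, b α' j' (τ i) : ℕ) : ℝ) := by
      by_contra hcon
      apply hnot
      refine Finset.mem_filter.2 ⟨Finset.mem_univ _, fun j' => ?_⟩
      by_contra h3
      push Not at h3
      exact hcon ⟨j', h3.1, fun τ hτ => h3.2 τ hτ⟩
    obtain ⟨j', hj'0, hj'⟩ := hnot'
    have hjj : j' = j := by
      by_contra hne'
      rw [hα'ne j' hne'] at hj'0
      rcases haA' j' with h0 | ⟨τ', hτ', h0⟩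
      · exact hj'0 h0
      · have h1 := hj' τ' hτ'
        have h2 : (∏ i, b α' j' (τ' i)) ≤ ∏ i, b α j' (τ' i) := by
          apply Finset.prod_le_prod'
          intro i _
          have := lvl_mono (N := N) (B := B) (hτ'.1 i) hle
          simp only [hb]
          rw [hα'ne j' hne']
          omega
        have h3 : ((∏ i, b α' j' (τ' i) : ℕ) : ℝ) ≤ ((∏ i, b α j' (τ' i) : ℕ) : ℝ) := by
          exact_mod_cast h2
        linarith
    subst hjj
    refine (hj' τ hτ).trans_le ?_
    have h2 : (∏ i, b α' j' (τ i)) ≤ ∏ i, (b α j' (τ i) + 1) := by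
      apply Finset.prod_le_prod'
      intro i _
      have := lvl_mono (N := N) (B := B) (hτ.1 i) hle
      simp only [hb]
      rw [hα'j]
      omega
    exact_mod_cast h2
  have hq0 : (0 : ℝ) < q := by rw [hq]; push_cast; positivity
  refine ⟨fun j ℓ => ((b α j ℓ + 1 : ℕ) : ℝ) / q, ?_, ?_, ?_⟩
  · intro j ℓ
    positivity
  · intro ℓ
    by_cases hj : ∃ j, inc j ℓ
    · obtain ⟨j, hj⟩ := hj
      have h1 := sum_lvl_le (N := N) (B := B) hj hαB
      rw [← Finset.sum_div, div_le_iff₀ hq0]
      have h2 : ∑ j with inc j ℓ, ((b α j ℓ + 1 : ℕ) : ℝ) ≤ ((N + 2 * Fintype.card J : ℕ) : ℝ) := by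
        rw [← Nat.cast_sum]
        exact_mod_cast h1
      refine h2.trans ?_
      rw [hN, hq]
      push_cast
      nlinarith
    · have : (Finset.univ.filter fun j => inc j ℓ) = ∅ := by
        apply Finset.filter_eq_empty_iff.2
        intro j _ hj'
        exact hj ⟨j, hj'⟩
      rw [this, Finset.sum_empty]
      positivity
  · intro j τ h1 h2
    have h3 := hraise j τ ⟨h1, h2⟩
    rw [Finset.prod_div_distrib, Finset.prod_const, Finset.card_univ, Fintype.card_fin,
      le_div_iff₀ (by positivity), ← Nat.cast_prod]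
    exact h3.le

end

end Pool.Agent.H27.Content
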