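import Mathlib
import Pool.Agent.H27.Content.Joints
import Pool.Agent.H27.Content.Face
import Pool.Agent.H27.Content.Faces
import Pool.Agent.H27.Content.Coord

/-!
The step inequality for polytopes, for the faces projecting injectively under a fixed
coordinate projection.
-/

set_option autoImplicit false

open Set Module MeasureTheory Measure Matrix
open scoped ENNReal NNReal

namespace Pool.Agent.H27.Content

variable {d : ℕ}

/-- a functional is a linear combination of the coordinates of an injective map -/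
theorem exists_coeff {N : ℕ} (T : EuclideanSpace ℝ (Fin d) →ₗ[ℝ] (Fin N → ℝ))
    (U : Submodule ℝ (EuclideanSpace ℝ (Fin d))) (hT : ∀ x ∈ U, T x = 0 → x = 0)
    (τ : EuclideanSpace ℝ (Fin d) →ₗ[ℝ] ℝ) : ∃ m : Fin N → ℝ, ∀ x ∈ U, τ x = m ⬝ᵥ T x := by
  have hker : LinearMap.ker (T.domRestrict U) = ⊥ := by
    rw [LinearMap.ker_eq_bot']
    rintro ⟨x, hx⟩ h
    ext1
    exact hT x hx h
  obtain ⟨g, hg⟩ := LinearMap.exists_leftInverse_of_injective (T.domRestrict U) hker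
  refine ⟨fun k => τ (g (Pi.single k 1)), fun x hx => ?_⟩
  have h1 : g (T x) = ⟨x, hx⟩ := by
    have := congrArg (fun f => f ⟨x, hx⟩) hg
    simpa using this
  have h2 : τ x = τ (g (T x)) := by rw [h1]
  have h3 := LinearMap.pi_apply_eq_sum_univ (τ ∘ₗ U.subtype ∘ₗ g) (T x)
  have h4 : (τ ∘ₗ U.subtype ∘ₗ g) (T x) = τ (g (T x)) := rfl
  rw [h2, ← h4, h3, dotProduct]
  refine Finset.sum_congr rfl fun k _ => ?_
  have h5 : (fun j : Fin N => if k = j then (1 : ℝ) else 0) = Pi.single k 1 := by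
    ext i
    simp [Pi.single_apply, eq_comm]
  rw [smul_eq_mul, mul_comm, h5]
  rfl

/-- a normal vector of a hyperplane -/
theorem exists_normal {n : ℕ} (W : Submodule ℝ (Fin (n+1) → ℝ)) (hW : finrank ℝ W ≤ n) :
    ∃ u : Fin (n+1) → ℝ, u ≠ 0 ∧ (∀ w ∈ W, u ⬝ᵥ w = 0) ∧
      (finrank ℝ W = n → (∀ v, u ⬝ᵥ v = 0 → v ∈ W) ∧
        ∀ q : Fin (n+1) → ℝ, (∀ w ∈ W, q ⬝ᵥ w = 0) → ∃ t : ℝ, q = t • u) := by
  have hlt : W < ⊤ := by
    refine lt_of_le_of_ne le_top fun h => ?_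
    rw [h, finrank_top] at hW
    simp at hW
  obtain ⟨f, hf0, hf⟩ := W.exists_le_ker_of_lt_top hlt
  set u : Fin (n+1) → ℝ := fun k => f (Pi.single k 1) with hu
  have hfu : ∀ y, f y = u ⬝ᵥ y := by
    intro y
    rw [LinearMap.pi_apply_eq_sum_univ f y, dotProduct]
    refine Finset.sum_congr rfl fun k _ => ?_
    rw [smul_eq_mul, mul_comm, hu]
    congr 2
    ext i
    simp [Pi.single_apply, eq_comm]
  have hu0 : u ≠ 0 := by
    intro h
    apply hf0
    ext y
    simp [hfu, h]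
  refine ⟨u, hu0, fun w hw => by rw [← hfu]; exact hf hw, fun hWn => ?_⟩
  have hker : finrank ℝ (LinearMap.ker f) = n := by
    have := Module.Dual.finrank_ker_add_one_of_ne_zero hf0
    simp at this
    exact this
  have hWeq : W = LinearMap.ker f := Submodule.eq_of_le_of_finrank_eq hf (by rw [hWn, hker])
  have hmem : ∀ v, u ⬝ᵥ v = 0 → v ∈ W := by
    intro v hv
    rw [hWeq, LinearMap.mem_ker, hfu, hv]
  refine ⟨hmem, fun q hq => ?_⟩
  have huu : u ⬝ᵥ u ≠ 0 := fun h => hu0 (dotProduct_self_eq_zero.1 h)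
  refine ⟨(q ⬝ᵥ u) / (u ⬝ᵥ u), ?_⟩
  apply dotProduct_eq
  intro y
  have h1 : u ⬝ᵥ (y - ((u ⬝ᵥ y) / (u ⬝ᵥ u)) • u) = 0 := by
    rw [dotProduct_sub, dotProduct_smul, smul_eq_mul, div_mul_cancel₀ _ huu, sub_self]
  have h2 := hq _ (hmem _ h1)
  rw [dotProduct_sub, dotProduct_smul, smul_eq_mul, sub_eq_zero] at h2
  rw [h2, smul_dotProduct, smul_eq_mul]
  ring

theorem map_ne_top_of_finrank_lt {n : ℕ} (T : EuclideanSpace ℝ (Fin d) →ₗ[ℝ] (Fin n → ℝ))
    (W : Submodule ℝ (EuclideanSpace ℝ (Fin d))) (hW : finrank ℝ W < n) : W.map T ≠ ⊤ := by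
  intro h
  have h1 : finrank ℝ (W.map T) ≤ finrank ℝ W := Submodule.finrank_map_le T W
  rw [h, finrank_top] at h1
  simp at h1
  omega

theorem map_ne_top_of_ker {n : ℕ} (T : EuclideanSpace ℝ (Fin d) →ₗ[ℝ] (Fin n → ℝ))
    (W : Submodule ℝ (EuclideanSpace ℝ (Fin d))) (hW : finrank ℝ W ≤ n)
    {w : EuclideanSpace ℝ (Fin d)} (hw : w ∈ W) (hw0 : w ≠ 0) (hTw : T w = 0) : W.map T ≠ ⊤ := by
  intro h
  have h1 := LinearMap.finrank_range_add_finrank_ker (T.domRestrict W)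
  have h2 : LinearMap.range (T.domRestrict W) = W.map T := by
    ext y; simp [Submodule.mem_map]
  rw [h2, h, finrank_top] at h1
  have h3 : 0 < finrank ℝ (LinearMap.ker (T.domRestrict W)) := by
    rw [Module.finrank_pos_iff_exists_ne_zero]
    refine ⟨⟨⟨w, hw⟩, ?_⟩, ?_⟩
    · simpa using hTw
    · intro h0
      apply hw0
      have := congrArg (fun x : LinearMap.ker (T.domRestrict W) =>
        ((x : W) : EuclideanSpace ℝ (Fin d))) h0
      simpa using this
  simp at h1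
  omega

theorem cover (S : Finset (EuclideanSpace ℝ (Fin d))) {P : Set (EuclideanSpace ℝ (Fin d))}
    (hP : P = convexHull ℝ (S : Set (EuclideanSpace ℝ (Fin d)))) {n : ℕ} (e : Fin (n+1) → Fin d)
    {G : Set (EuclideanSpace ℝ (Fin d))} (hG : IsExposed ℝ P G)
    (hGd : finrank ℝ (dir G) = n + 1) (hinj : ∀ x ∈ dir G, cp e x = 0 → x = 0)
    {ι : Type*} [Fintype ι] (Af : ι → Set (EuclideanSpace ℝ (Fin d)))
    (hι : ∀ F', IsExposed ℝ P F' → F'.Nonempty → F' ⊆ G →
      finrank ℝ (dir F') = n → ∃ i, Af i = F')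
    (u : ι → Fin (n+1) → ℝ) (hu : ∀ i v, u i ⬝ᵥ v = 0 → v ∈ (dir (Af i)).map (cp e))
    (hfin : ∀ i, μH[(n : ℝ)] (Af i) ≠ ∞)
    (j : Fin (n+1)) (v : Fin (n+1) → ℝ) (hv : ∀ i, |v i| ≤ |v j|) (hvj : v j ≠ 0) :
    volume (pr j v '' (cp e '' G)) ≤
      ENNReal.ofReal (∑ i with u i ⬝ᵥ v ≠ 0, 2 ^ n * (μH[(n : ℝ)] (Af i)).toReal) := by
  subst hP
  classical
  have hv0 : v ≠ 0 := fun h => hvj (by rw [h]; rfl)
  -- a vector above `v`
  obtain ⟨w, hwG, hwv⟩ : ∃ w ∈ dir G, cp e w = v := by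
    have h1 : (dir G).map (cp e) = ⊤ := by
      apply Submodule.eq_top_of_finrank_eq
      have hinj' : Function.Injective ((cp e).domRestrict (dir G)) := by
        rw [← LinearMap.ker_eq_bot, LinearMap.ker_eq_bot']
        rintro ⟨x, hx⟩ h
        ext1
        exact hinj x hx h
      have h2 := LinearMap.finrank_range_of_inj hinj'
      have h3 : LinearMap.range ((cp e).domRestrict (dir G)) = (dir G).map (cp e) := by
        ext y; simp [Submodule.mem_map]
      rw [h3] at h2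
      rw [h2, hGd]
      simp
    have h2 : v ∈ (dir G).map (cp e) := by rw [h1]; trivial
    exact Submodule.mem_map.1 h2
  have hw0 : w ≠ 0 := by
    rintro rfl
    exact hv0 (by rw [← hwv, map_zero])
  -- the proper subfaces
  set FF : Set (Set (EuclideanSpace ℝ (Fin d))) :=
    {F' | IsExposed ℝ (convexHull ℝ (S : Set _)) F' ∧ F' ⊆ G ∧ F' ≠ G ∧ F'.Nonempty} with hFF
  have hFFfin : FF.Finite := (finite_faces S).subset fun F' h => h.1
  set T : EuclideanSpace ℝ (Fin d) →ₗ[ℝ] (Fin n → ℝ) := (pr j v) ∘ₗ (cp e) with hT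
  have hTw : T w = 0 := by
    rw [hT, LinearMap.comp_apply, hwv, pr_self hvj]
  set N : Set (Set (EuclideanSpace ℝ (Fin d))) := {F' ∈ FF | (dir F').map T ≠ ⊤} with hN
  set I : Finset ι := Finset.univ.filter (fun i => u i ⬝ᵥ v ≠ 0) with hI
  have hsub : pr j v '' (cp e '' G) ⊆ (⋃ i ∈ I, T '' (Af i)) ∪ ⋃ F' ∈ N, T '' F' := by
    rintro _ ⟨_, ⟨g, hg, rfl⟩, rfl⟩
    obtain ⟨t, F', hF', hF'G, hF'ne, hmem⟩ := exit_face S hG hg hwG hw0
    have hTeq : T (g + t • w) = pr j v (cp e g) := by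
      rw [map_add, map_smul, hTw, smul_zero, add_zero]; rfl
    have hF'FF : F' ∈ FF := ⟨hF', hF'G, hF'ne, ⟨_, hmem⟩⟩
    by_cases htop : (dir F').map T = ⊤
    · left
      have hlt := dir_lt hF' hG ⟨_, hmem⟩ hF'G hF'ne
      rw [hGd] at hlt
      have hge : n ≤ finrank ℝ (dir F') := by
        by_contra hlt'
        push Not at hlt'
        exact map_ne_top_of_finrank_lt T _ hlt' htop
      have hn' : finrank ℝ (dir F') = n := by omega
      obtain ⟨i, hi⟩ := hι F' hF' ⟨_, hmem⟩ hF'G hn'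
      have hui : u i ⬝ᵥ v ≠ 0 := by
        intro h0
        obtain ⟨w', hw'F, hw'v⟩ := Submodule.mem_map.1 (hu i v h0)
        rw [hi] at hw'F
        have hw'0 : w' ≠ 0 := by
          rintro rfl
          exact hv0 (by rw [← hw'v, map_zero])
        have hTw' : T w' = 0 := by
          rw [hT, LinearMap.comp_apply, hw'v, pr_self hvj]
        exact map_ne_top_of_ker T _ hn'.le hw'F hw'0 hTw' htop
      refine mem_iUnion₂.2 ⟨i, by simpa [hI] using hui, g + t • w, ?_, hTeq⟩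
      rw [hi]; exact hmem
    · right
      exact mem_iUnion₂.2 ⟨F', ⟨hF'FF, htop⟩, g + t • w, hmem, hTeq⟩
  have hnull : volume (⋃ F' ∈ N, T '' F') = 0 := by
    have hNfin : N.Finite := hFFfin.subset fun F' h => h.1
    rw [measure_biUnion_null_iff hNfin.countable]
    intro F' hF'
    exact volume_image_eq_zero T F' hF'.2
  calc volume (pr j v '' (cp e '' G))
      ≤ volume ((⋃ i ∈ I, T '' (Af i)) ∪ ⋃ F' ∈ N, T '' F') := measure_mono hsub
    _ ≤ volume (⋃ i ∈ I, T '' (Af i)) + volume (⋃ F' ∈ N, T '' F') := measure_union_le _ _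
    _ = volume (⋃ i ∈ I, T '' (Af i)) := by rw [hnull, add_zero]
    _ ≤ ∑ i ∈ I, volume (T '' (Af i)) := measure_biUnion_finset_le _ _
    _ ≤ ∑ i ∈ I, ENNReal.ofReal (2 ^ n * (μH[(n : ℝ)] (Af i)).toReal) := by
        refine Finset.sum_le_sum fun i _ => ?_
        have h1 := volume_shadow_le e j v hv hvj (Af i)
        rw [← image_comp] at h1
        rw [ENNReal.ofReal_mul (by positivity), ENNReal.ofReal_toReal (hfin i),
          ENNReal.ofReal_pow (by norm_num), ENNReal.ofReal_ofNat]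
        exact h1
    _ = ENNReal.ofReal (∑ i ∈ I, 2 ^ n * (μH[(n : ℝ)] (Af i)).toReal) := by
        rw [ENNReal.ofReal_sum_of_nonneg]
        intro i _
        positivity

/-- faces of dimension `j` -/
abbrev FC (P : Set (EuclideanSpace ℝ (Fin d))) (j : ℕ) : Type :=
  {F : Set (EuclideanSpace ℝ (Fin d)) //
    IsExposed ℝ P F ∧ F.Nonempty ∧ finrank ℝ (affineSpan ℝ F).direction = j}

theorem finite_FC (S : Finset (EuclideanSpace ℝ (Fin d))) (j : ℕ) :
    Finite (FC (convexHull ℝ (S : Set (EuclideanSpace ℝ (Fin d)))) j) :=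
  ((finite_faces S).subset fun _ h => h.1).to_subtype

theorem step_fixed (S : Finset (EuclideanSpace ℝ (Fin d))) {P : Set (EuclideanSpace ℝ (Fin d))}
    (hP : P = convexHull ℝ (S : Set (EuclideanSpace ℝ (Fin d)))) {n : ℕ} (hn : n ≠ 0)
    (e : Fin (n+1) → Fin d) [Fintype (FC P n)]
    (hfin : ∀ A : FC P n, μH[(n:ℝ)] A.1 ≠ ∞) (GG : Finset (FC P (n+1)))
    (hGG : ∀ G ∈ GG, ∀ x ∈ dir G.1, cp e x = 0 → x = 0) :
    (∑ G ∈ GG, (volume (cp e '' G.1)).toReal)^n ≤
      ((2 * (n+1)) * (n+2) * 2^n * ∑ A : FC P n, (μH[(n:ℝ)] A.1).toReal)^(n+1) := by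
  classical
  rcases GG.eq_empty_or_nonempty with rfl | hne
  · rw [Finset.sum_empty, zero_pow hn]
    positivity
  have hPc : IsCompact P := by rw [hP]; exact S.finite_toSet.isCompact_convexHull ℝ
  have hPconv : Convex ℝ P := by rw [hP]; exact convex_convexHull ℝ _
  have hcpc : Continuous (cp e) := (cp e).continuous_of_finiteDimensional
  have hcompact : ∀ G : FC P (n+1), IsCompact (cp e '' G.1) := fun G =>
    (G.2.1.isCompact hPc).image hcpc
  have hconv : ∀ G : FC P (n+1), Convex ℝ (cp e '' G.1) := fun G =>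
    (G.2.1.convex hPconv).linear_image (cp e)
  have hmapfr : ∀ W U : Submodule ℝ (EuclideanSpace ℝ (Fin d)), W ≤ U →
      (∀ x ∈ U, cp e x = 0 → x = 0) → finrank ℝ (W.map (cp e)) = finrank ℝ W := by
    intro W U hWU hU
    have hinj' : Function.Injective ((cp e).domRestrict W) := by
      rw [← LinearMap.ker_eq_bot, LinearMap.ker_eq_bot']
      rintro ⟨x, hx⟩ h
      ext1
      exact hU x (hWU hx) h
    have h2 := LinearMap.finrank_range_of_inj hinj'
    have h3 : LinearMap.range ((cp e).domRestrict W) = W.map (cp e) := by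
      ext y; simp [Submodule.mem_map]
    rw [← h3, h2]
  have hmaptop : ∀ U : Submodule ℝ (EuclideanSpace ℝ (Fin d)),
      (∀ x ∈ U, cp e x = 0 → x = 0) → finrank ℝ U = n + 1 → U.map (cp e) = ⊤ := by
    intro U hU hUn
    apply Submodule.eq_top_of_finrank_eq
    rw [hmapfr U U le_rfl hU, hUn]
    simp
  have hint : ∀ G ∈ GG, (interior (cp e '' G.1)).Nonempty := by
    intro G hG
    apply interior_nonempty_of_vectorSpan (hconv G) (G.2.2.1.image _)
    have h1 := AffineMap.map_vectorSpan (f := (cp e).toAffineMap) (s := G.1)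
    have h2 : (cp e).toAffineMap '' G.1 = cp e '' G.1 := rfl
    rw [← h2, ← h1, ← direction_affineSpan]
    exact hmaptop _ (hGG G hG) G.2.2.2
  set V : FC P (n+1) → ℝ := fun G => (volume (cp e '' G.1)).toReal with hV
  have hVpos : ∀ G ∈ GG, 0 < V G := by
    intro G hG
    exact ENNReal.toReal_pos (measure_pos_of_nonempty_interior volume (hint G hG)).ne'
      (hcompact G).measure_lt_top.ne
  set Se : ℝ := ∑ G ∈ GG, V G with hSe
  have hSe0 : 0 < Se := Finset.sum_pos hVpos hne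
  -- directions
  set D : Finset (Submodule ℝ (EuclideanSpace ℝ (Fin d))) := GG.image (fun G => dir G.1) with hD
  have hDp : ∀ U ∈ D, (∀ x ∈ U, cp e x = 0 → x = 0) ∧ finrank ℝ U = n + 1 := by
    intro U hU
    obtain ⟨G, hG, rfl⟩ := Finset.mem_image.1 hU
    exact ⟨hGG G hG, G.2.2.2⟩
  -- the functional
  have hw : ∀ p : {p : D × D // p.1 ≠ p.2}, ∃ w : EuclideanSpace ℝ (Fin d), w ≠ 0 ∧
      ∃ y ∈ p.1.1.1, ∃ y' ∈ p.1.2.1, cp e y = cp e y' ∧ w = y - y' := by
    rintro ⟨⟨U, U'⟩, hUU⟩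
    have hUU' : ¬ (U.1 ≤ U'.1) := by
      intro h
      apply hUU
      ext1
      exact Submodule.eq_of_le_of_finrank_eq h (by rw [(hDp _ U.2).2, (hDp _ U'.2).2])
    obtain ⟨y, hy, hy'⟩ := SetLike.not_le_iff_exists.1 hUU'
    have h1 : cp e y ∈ U'.1.map (cp e) := by
      rw [hmaptop _ (hDp _ U'.2).1 (hDp _ U'.2).2]; trivial
    obtain ⟨z, hz, hzy⟩ := Submodule.mem_map.1 h1
    refine ⟨y - z, ?_, y, hy, z, hz, hzy.symm, rfl⟩
    intro h
    apply hy'
    rw [sub_eq_zero.1 h]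
    exact hz
  choose w hw0 y hy y' hy' hyy hwy using hw
  obtain ⟨τ, hτ⟩ := Module.exists_dual_forall_apply_ne_zero (K := ℝ) w hw0
  have hm : ∀ U : D, ∃ m : Fin (n+1) → ℝ, ∀ x ∈ U.1, τ x = m ⬝ᵥ cp e x := fun U =>
    exists_coeff (cp e) U.1 (hDp _ U.2).1 τ
  choose m hm using hm
  have hminj : Function.Injective m := by
    intro U U' hUU
    by_contra hne'
    set p : {p : D × D // p.1 ≠ p.2} := ⟨(U, U'), hne'⟩ with hp
    apply hτ p
    rw [hwy p, map_sub, hm U _ (hy p), hm U' _ (hy' p), hyy p, hUU, sub_self]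
  -- normal vectors
  have hu : ∀ A : FC P n, ∃ u : Fin (n+1) → ℝ, u ≠ 0 ∧
      (∀ w ∈ (dir A.1).map (cp e), u ⬝ᵥ w = 0) ∧
      (finrank ℝ ((dir A.1).map (cp e)) = n →
        (∀ v, u ⬝ᵥ v = 0 → v ∈ (dir A.1).map (cp e)) ∧
        ∀ q : Fin (n+1) → ℝ, (∀ w ∈ (dir A.1).map (cp e), q ⬝ᵥ w = 0) →
          ∃ t : ℝ, q = t • u) := by
    intro A
    exact exists_normal _ ((Submodule.finrank_map_le _ _).trans A.2.2.2.le)
  choose u _ hu1 hu2 using hu
  let inc : D → FC P n → Prop := fun U A => dir A.1 ≤ U.1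
  have hline : ∀ (A : FC P n) (U U' : D), inc U A → inc U' A → ∃ t : ℝ, m U' = m U + t • u A := by
    intro A U U' h1 h2
    have hfr : finrank ℝ ((dir A.1).map (cp e)) = n := by
      rw [hmapfr _ U.1 h1 (hDp _ U.2).1]; exact A.2.2.2
    obtain ⟨t, ht⟩ := (hu2 A hfr).2 (m U' - m U) (by
      intro z hz
      obtain ⟨x, hx, rfl⟩ := Submodule.mem_map.1 hz
      rw [sub_dotProduct, ← hm U x (h1 hx), ← hm U' x (h2 hx), sub_self])
    exact ⟨t, by rw [← ht]; abel⟩
  -- weights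
  let lam : D → ℝ := fun U => (∑ G ∈ GG with dir G.1 = U.1, V G) / Se
  have hlam : ∀ U, 0 < lam U := by
    intro U
    apply div_pos _ hSe0
    obtain ⟨G, hG, hGU⟩ := Finset.mem_image.1 U.2
    apply Finset.sum_pos
    · intro G' hG'
      exact hVpos G' (Finset.mem_filter.1 hG').1
    · exact ⟨G, Finset.mem_filter.2 ⟨hG, hGU⟩⟩
  have hlamsum : ∑ U, lam U = 1 := by
    simp only [lam]
    rw [← Finset.sum_div]
    have h1 : ∑ U : D, (∑ G ∈ GG with dir G.1 = U.1, V G) = Se := by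
      rw [Finset.sum_coe_sort D (fun U => ∑ G ∈ GG with dir G.1 = U, V G), hSe]
      exact Finset.sum_fiberwise_of_maps_to (fun G hG => Finset.mem_image_of_mem _ hG) _
    rw [h1, div_self hSe0.ne']
  obtain ⟨β, hβpos, hβsum, hβ⟩ := joints (inc := inc) (Nat.succ_pos n) m hminj u hline lam hlam
    hlamsum.le
  -- total extension of `β`
  let βt : Submodule ℝ (EuclideanSpace ℝ (Fin d)) → FC P n → ℝ := fun U A =>
    if h : U ∈ D then β ⟨U, h⟩ A else 0
  have hβt : ∀ (U : D) A, βt U.1 A = β U A := fun U A => by simp [βt]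
  set μ : FC P n → ℝ := fun A => (μH[(n:ℝ)] A.1).toReal with hμ
  have hμ0 : ∀ A, 0 ≤ μ A := fun A => ENNReal.toReal_nonneg
  let Y : FC P (n+1) → ℝ := fun G =>
    ∑ A : FC P n with A.1 ⊆ G.1, 2 ^ n * μ A * βt (dir G.1) A
  have hface : ∀ G ∈ GG, V G / Se * V G ^ n ≤ (2 * (n+1 : ℝ)) ^ (n+1) * (Y G) ^ (n+1) := by
    intro G hG
    set U : D := ⟨dir G.1, Finset.mem_image_of_mem _ hG⟩ with hU
    obtain ⟨σ, hσ1, hσ2⟩ := face_ineq (hconv G) (hcompact G) (hint G hG)
      (ι := {A : FC P n // A.1 ⊆ G.1}) (fun A => u A.1) (fun A => 2 ^ n * μ A.1)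
      (fun A => mul_nonneg (by positivity) (hμ0 _)) (fun A => β U A.1) (fun A => hβpos _ _)
      (by
        intro j v hv hvj
        refine cover S hP e G.2.1 G.2.2.2 (hGG G hG) (ι := {A : FC P n // A.1 ⊆ G.1})
          (fun A => A.1.1) ?_ (fun A => u A.1) ?_ (fun A => hfin A.1) j v hv hvj
        · intro F' h1 h2 h3 h4
          exact ⟨⟨⟨F', h1, h2, h4⟩, h3⟩, rfl⟩
        · intro A v hv
          refine (hu2 A.1 ?_).1 v hv
          rw [hmapfr _ _ (dir_mono A.2) (hGG G hG)]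
          exact A.1.2.2.2)
    have h1 := hβ U (fun i => (σ i).1) (fun i => dir_mono (σ i).2) hσ1
    have h2 : V G / Se ≤ lam U := by
      apply div_le_div_of_nonneg_right _ hSe0.le
      exact Finset.single_le_sum (f := V) (fun G' hG' => (hVpos G' (Finset.mem_filter.1 hG').1).le)
        (Finset.mem_filter.2 ⟨hG, rfl⟩)
    have h3 : Y G = ∑ A : {A : FC P n // A.1 ⊆ G.1}, 2 ^ n * μ A.1 * β U A.1 := by
      simp only [Y]
      rw [Finset.sum_subtype (p := fun A : FC P n => A.1 ⊆ G.1) _ (by simp)]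
      refine Finset.sum_congr rfl fun A _ => ?_
      rw [← hβt U]
    rw [h3]
    refine le_trans ?_ hσ2
    exact mul_le_mul_of_nonneg_right (h2.trans h1) (pow_nonneg ENNReal.toReal_nonneg n)
  -- the root
  obtain ⟨r, hr0, hr⟩ : ∃ r : ℝ, 0 < r ∧ r ^ (n+1) = Se := by
    refine ⟨Se ^ (((n+1 : ℕ) : ℝ)⁻¹), Real.rpow_pos_of_pos hSe0 _, ?_⟩
    exact Real.rpow_inv_natCast_pow hSe0.le (Nat.succ_ne_zero n)
  have hY0 : ∀ G ∈ GG, 0 ≤ Y G := by
    intro G hG
    apply Finset.sum_nonneg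
    intro A _
    have : βt (dir G.1) A = β ⟨dir G.1, Finset.mem_image_of_mem _ hG⟩ A :=
      hβt ⟨dir G.1, Finset.mem_image_of_mem _ hG⟩ A
    rw [this]
    exact mul_nonneg (mul_nonneg (by positivity) (hμ0 _)) (hβpos _ _).le
  have hVle : ∀ G ∈ GG, V G ≤ r * (2 * (n+1)) * Y G := by
    intro G hG
    have h1 := hface G hG
    have h2 : V G ^ (n+1) ≤ (r * (2 * (n+1)) * Y G) ^ (n+1) := by
      rw [mul_pow, mul_pow, hr, mul_assoc]
      calc V G ^ (n+1) = Se * (V G / Se * V G ^ n) := by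
            field_simp
            ring
        _ ≤ _ := mul_le_mul_of_nonneg_left h1 hSe0.le
    exact (pow_le_pow_iff_left₀ (hVpos G hG).le
      (mul_nonneg (by positivity) (hY0 G hG)) (Nat.succ_ne_zero n)).1 h2
  -- the sum of the `Y G`
  have hYsum : ∑ G ∈ GG, Y G ≤ (n+2) * 2 ^ n * ∑ A, μ A := by
    have h1 : ∑ G ∈ GG, Y G = ∑ A, 2 ^ n * μ A * ∑ G ∈ GG with A.1 ⊆ G.1, βt (dir G.1) A := by
      simp only [Y, Finset.sum_filter, Finset.mul_sum]
      rw [Finset.sum_comm]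
      refine Finset.sum_congr rfl fun A _ => Finset.sum_congr rfl fun G _ => ?_
      split_ifs <;> simp
    have h2 : ∀ A : FC P n, ∑ G ∈ GG with A.1 ⊆ G.1, βt (dir G.1) A ≤ n + 2 := by
      intro A
      have hinjA : ∀ G ∈ GG.filter (fun G => A.1 ⊆ G.1),
          ∀ G' ∈ GG.filter (fun G => A.1 ⊆ G.1), dir G.1 = dir G'.1 → G = G' := by
        intro G hG G' hG' hd
        obtain ⟨a, ha⟩ := A.2.2.1
        ext1
        exact face_eq_of_dir_eq G.2.1 G'.2.1 ((Finset.mem_filter.1 hG).2 ha)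
          ((Finset.mem_filter.1 hG').2 ha) hd
      have h3 : ∑ G ∈ GG with A.1 ⊆ G.1, βt (dir G.1) A =
          ∑ U ∈ (GG.filter (fun G => A.1 ⊆ G.1)).image (fun G => dir G.1), βt U A := by
        rw [Finset.sum_image hinjA]
      have h4 : ∑ U : D with inc U A, β U A = ∑ U ∈ D with dir A.1 ≤ U, βt U A := by
        rw [Finset.sum_filter, Finset.sum_filter,
          ← Finset.sum_coe_sort D (fun U => if dir A.1 ≤ U then βt U A else 0)]
        refine Finset.sum_congr rfl fun U _ => ?_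
        rw [hβt U]
      have h5 := hβsum A
      rw [h4] at h5
      rw [h3]
      refine le_trans (Finset.sum_le_sum_of_subset_of_nonneg ?_ ?_) (h5.trans ?_)
      · intro U hU
        obtain ⟨G, hG, rfl⟩ := Finset.mem_image.1 hU
        obtain ⟨hG1, hG2⟩ := Finset.mem_filter.1 hG
        exact Finset.mem_filter.2 ⟨Finset.mem_image_of_mem _ hG1, dir_mono hG2⟩
      · intro U hU _
        have hUD := (Finset.mem_filter.1 hU).1
        have : βt U A = β ⟨U, hUD⟩ A := hβt ⟨U, hUD⟩ A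
        rw [this]
        exact (hβpos _ _).le
      · push_cast
        linarith
    rw [h1, Finset.mul_sum]
    refine Finset.sum_le_sum fun A _ => ?_
    have := mul_le_mul_of_nonneg_left (h2 A) (mul_nonneg (by positivity : (0:ℝ) ≤ 2 ^ n) (hμ0 A))
    linarith
  set X : ℝ := (2 * (n+1)) * (n+2) * 2^n * ∑ A, μ A with hX
  have hX0 : 0 ≤ X := by
    have : 0 ≤ ∑ A, μ A := Finset.sum_nonneg fun A _ => hμ0 A
    positivity
  have hrX : r ^ (n+1) ≤ r * X := by
    rw [hr, hSe]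
    calc ∑ G ∈ GG, V G ≤ ∑ G ∈ GG, r * (2 * (n+1)) * Y G := Finset.sum_le_sum hVle
      _ = r * (2 * (n+1)) * ∑ G ∈ GG, Y G := by rw [Finset.mul_sum]
      _ ≤ r * (2 * (n+1)) * ((n+2) * 2 ^ n * ∑ A, μ A) :=
          mul_le_mul_of_nonneg_left hYsum (by positivity)
      _ = r * X := by rw [hX]; ring
  have hrn : r ^ n ≤ X := by
    rw [pow_succ, mul_comm] at hrX
    exact le_of_mul_le_mul_left hrX hr0
  calc Se ^ n = (r ^ n) ^ (n+1) := by rw [← hr, ← pow_mul, ← pow_mul, mul_comm]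
    _ ≤ X ^ (n+1) := pow_le_pow_left₀ (pow_nonneg hr0.le n) hrn _

end Pool.Agent.H27.Content
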