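import Mathlib
import Pool.Agent.H27.Content.Step

/-!
The inequality between the contents of a polytope, and the passage to convex bodies.
-/

set_option autoImplicit false

open Set Module MeasureTheory Measure
open scoped ENNReal NNReal

namespace Pool.Agent.H27.Content

variable {d : ℕ}

/-- the `j`-content of a polytope -/
noncomputable def Z (P : Set (EuclideanSpace ℝ (Fin d))) (j : ℕ) : ℝ≥0∞ :=
  ∑' F : FC P j, μH[(j : ℝ)] (F : Set (EuclideanSpace ℝ (Fin d)))

theorem poly_step (d : ℕ) {n : ℕ} (hn : n ≠ 0) : ∃ C : ℝ≥0, C ≠ 0 ∧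
    ∀ S : Finset (EuclideanSpace ℝ (Fin d)),
      (Z (convexHull ℝ (S : Set (EuclideanSpace ℝ (Fin d)))) (n+1)) ^ n ≤
        C * (Z (convexHull ℝ (S : Set (EuclideanSpace ℝ (Fin d)))) n) ^ (n+1) := by
  classical
  obtain ⟨c, hc0, hc⟩ := exists_coords d (n+1)
  set κ : ℝ≥0 := (Real.toNNReal (d * (c * (n+1 : ℕ)))) ^ (n+1) with hκ
  set N : ℕ := Fintype.card (Fin (n+1) → Fin d) with hN
  set c1 : ℝ≥0 := (2 * (n+1)) * (n+2) * 2^n with hc1
  refine ⟨(κ * N) ^ n * c1 ^ (n+1) + 1, by positivity, fun S => ?_⟩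
  set P : Set (EuclideanSpace ℝ (Fin d)) := convexHull ℝ (S : Set (EuclideanSpace ℝ (Fin d)))
    with hP
  have := finite_FC S n
  have := finite_FC S (n+1)
  let _ : Fintype (FC P n) := Fintype.ofFinite _
  let _ : Fintype (FC P (n+1)) := Fintype.ofFinite _
  have hZn : Z P n = ∑ A : FC P n, μH[(n:ℝ)] A.1 := by rw [Z, tsum_fintype]
  have hZn1 : Z P (n+1) = ∑ G : FC P (n+1), μH[((n+1 : ℕ) : ℝ)] G.1 := by rw [Z, tsum_fintype]
  by_cases htop : Z P n = ∞
  · rw [htop, ENNReal.top_pow (Nat.succ_ne_zero n), ENNReal.mul_top]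
    · exact le_top
    · rw [ENNReal.coe_ne_zero]; positivity
  have hfin : ∀ A : FC P n, μH[(n:ℝ)] A.1 ≠ ∞ := by
    intro A
    rw [hZn] at htop
    exact (ENNReal.sum_ne_top.1 htop) A (Finset.mem_univ A)
  -- coordinates
  have he : ∀ G : FC P (n+1), ∃ e : Fin (n+1) → Fin d, ∀ x ∈ dir G.1, ∀ j,
      |x j| ≤ c * ∑ k, |x (e k)| := fun G => hc _ G.2.2.2
  choose e he using he
  have hG : ∀ G : FC P (n+1), μH[((n+1 : ℕ) : ℝ)] G.1 ≤ κ * volume (cp (e G) '' G.1) := by
    intro G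
    have h1 := hausdorff_le_volume (e G) hc0 (G := G.1) (by
      intro x hx y hy j
      exact he G (x - y) (AffineSubspace.vsub_mem_direction (subset_affineSpan ℝ G.1 hx)
        (subset_affineSpan ℝ G.1 hy)) j)
    rw [hκ, ENNReal.coe_pow]
    exact h1
  set s : (Fin (n+1) → Fin d) → ℝ := fun f =>
    ∑ G with e G = f, (volume (cp f '' G.1)).toReal with hs
  set X : ℝ := (2 * (n+1)) * (n+2) * 2^n * ∑ A : FC P n, (μH[(n:ℝ)] A.1).toReal with hX
  have hvolfin : ∀ (f : Fin (n+1) → Fin d) (G : FC P (n+1)), volume (cp f '' G.1) ≠ ∞ := by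
    intro f G
    have hPc : IsCompact P := S.finite_toSet.isCompact_convexHull ℝ
    exact ((G.2.1.isCompact hPc).image
      (cp f).continuous_of_finiteDimensional).measure_lt_top.ne
  have hstep : ∀ f, s f ^ n ≤ X ^ (n+1) := by
    intro f
    refine step_fixed S hP hn f hfin (Finset.univ.filter fun G => e G = f) ?_
    intro G hG x hx h0
    have hef := (Finset.mem_filter.1 hG).2
    ext j
    have h1 := he G x hx j
    have h2 : ∀ k, x (e G k) = 0 := by
      intro k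
      rw [hef, ← cp_apply f x k, h0]; rfl
    simp only [h2, abs_zero, Finset.sum_const_zero, mul_zero] at h1
    simpa using abs_nonpos_iff.1 h1
  have hsum : Z P (n+1) ≤ κ * ∑ f, ENNReal.ofReal (s f) := by
    rw [hZn1]
    calc ∑ G : FC P (n+1), μH[((n+1 : ℕ) : ℝ)] G.1
        ≤ ∑ G : FC P (n+1), κ * volume (cp (e G) '' G.1) := Finset.sum_le_sum fun G _ => hG G
      _ = κ * ∑ G : FC P (n+1), volume (cp (e G) '' G.1) := by rw [Finset.mul_sum]
      _ = κ * ∑ f, ∑ G with e G = f, volume (cp (e G) '' G.1) := by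
          rw [Finset.sum_fiberwise]
      _ = κ * ∑ f, ENNReal.ofReal (s f) := by
          congr 1
          refine Finset.sum_congr rfl fun f _ => ?_
          rw [hs]
          simp only
          rw [ENNReal.ofReal_sum_of_nonneg (fun _ _ => ENNReal.toReal_nonneg)]
          refine Finset.sum_congr rfl fun G hG => ?_
          rw [ENNReal.ofReal_toReal (hvolfin f G), (Finset.mem_filter.1 hG).2]
  have hXZ : ENNReal.ofReal X = c1 * Z P n := by
    rw [hX, ENNReal.ofReal_mul (by positivity), hZn,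
      ← ENNReal.toReal_sum (fun A _ => hfin A), ENNReal.ofReal_toReal]
    · congr 1
      rw [hc1, ENNReal.ofReal, ENNReal.coe_inj]
      ext
      rw [Real.coe_toNNReal _ (by positivity)]
      push_cast
      ring
    · rw [← hZn]; exact htop
  by_cases hne : Nonempty (Fin (n+1) → Fin d)
  · obtain ⟨f0, hf0⟩ := Finite.exists_max s
    have h1 : ∑ f, ENNReal.ofReal (s f) ≤ N * ENNReal.ofReal (s f0) := by
      calc ∑ f, ENNReal.ofReal (s f) ≤ ∑ f : Fin (n+1) → Fin d, ENNReal.ofReal (s f0) :=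
            Finset.sum_le_sum fun f _ => ENNReal.ofReal_le_ofReal (hf0 f)
        _ = _ := by rw [Finset.sum_const, Finset.card_univ, nsmul_eq_mul]
    have hs0 : 0 ≤ s f0 := Finset.sum_nonneg fun _ _ => ENNReal.toReal_nonneg
    have hX0 : 0 ≤ X := by positivity
    calc Z P (n+1) ^ n ≤ (κ * (N * ENNReal.ofReal (s f0))) ^ n := by
          gcongr
          exact hsum.trans (mul_le_mul_right h1 _)
      _ = (κ * N) ^ n * ENNReal.ofReal (s f0 ^ n) := by
          rw [ENNReal.ofReal_pow hs0, ← mul_pow, mul_assoc]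
      _ ≤ (κ * N) ^ n * ENNReal.ofReal (X ^ (n+1)) := by
          gcongr
          exact hstep f0
      _ = (κ * N) ^ n * c1 ^ (n+1) * Z P n ^ (n+1) := by
          rw [ENNReal.ofReal_pow hX0, hXZ]
          ring
      _ ≤ ((((κ * N) ^ n * c1 ^ (n+1) + 1 : ℝ≥0)) : ℝ≥0∞) * Z P n ^ (n+1) := by
          gcongr
          push_cast
          exact le_self_add
  · have h0 : Z P (n+1) = 0 := by
      rw [hZn1]
      apply Finset.sum_eq_zero
      intro G _
      exact absurd ⟨e G⟩ hne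
    rw [h0, zero_pow hn]
    exact bot_le

theorem poly_step' (d : ℕ) {n : ℕ} (hn : n ≠ 0) : ∃ C : ℝ≥0, C ≠ 0 ∧
    ∀ S : Finset (EuclideanSpace ℝ (Fin d)),
      (Z (convexHull ℝ (S : Set (EuclideanSpace ℝ (Fin d)))) (n+1)) ^ ((1:ℝ) / ((n+1 : ℕ) : ℝ)) ≤
        C * (Z (convexHull ℝ (S : Set (EuclideanSpace ℝ (Fin d)))) n) ^ ((1:ℝ) / (n : ℝ)) := by
  obtain ⟨C, hC0, hC⟩ := poly_step d hn
  have hn0 : (0:ℝ) < n := by positivity
  refine ⟨C ^ ((1:ℝ) / (n * (n+1))), by positivity, fun S => ?_⟩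
  set P := convexHull ℝ (S : Set (EuclideanSpace ℝ (Fin d)))
  have h1 := ENNReal.rpow_le_rpow (hC S) (show (0:ℝ) ≤ 1 / (n * (n+1)) by positivity)
  rw [ENNReal.mul_rpow_of_nonneg _ _ (by positivity), ← ENNReal.rpow_natCast,
    ← ENNReal.rpow_natCast, ← ENNReal.rpow_mul, ← ENNReal.rpow_mul] at h1
  have h2 : (n:ℝ) * (1 / (n * (n+1))) = 1 / ((n+1 : ℕ) : ℝ) := by
    push_cast; field_simp
  have h3 : (((n+1 : ℕ)) : ℝ) * (1 / (n * (n+1))) = 1 / (n:ℝ) := by
    push_cast; field_simp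
  rw [h2, h3] at h1
  rw [ENNReal.coe_rpow_of_ne_zero hC0]
  exact h1

theorem poly_chain (d : ℕ) {k s : ℕ} (hk : 1 ≤ k) (hks : k ≤ s) : ∃ C : ℝ≥0,
    ∀ S : Finset (EuclideanSpace ℝ (Fin d)),
      (Z (convexHull ℝ (S : Set (EuclideanSpace ℝ (Fin d)))) s) ^ ((1:ℝ) / (s : ℝ)) ≤
        C * (Z (convexHull ℝ (S : Set (EuclideanSpace ℝ (Fin d)))) k) ^ ((1:ℝ) / (k : ℝ)) := by
  induction s, hks using Nat.le_induction with
  | base => exact ⟨1, fun S => by simp⟩
  | succ n hkn ih =>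
    obtain ⟨C, hC⟩ := ih
    obtain ⟨C', -, hC'⟩ := poly_step' d (n := n) (by omega)
    refine ⟨C' * C, fun S => (hC' S).trans ?_⟩
    rw [ENNReal.coe_mul, mul_assoc]
    gcongr
    exact hC S

end Pool.Agent.H27.Content
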