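import Mathlib

/-!
Polynomial part of the weighted joints theorem (handicap argument).
-/

set_option autoImplicit false

namespace Pool.Agent.H27.Content

open MvPolynomial

noncomputable section

variable {s : ℕ}

/-- All coefficients of total degree less than `m` vanish. -/
def Van (F : MvPolynomial (Fin s) ℝ) (m : ℤ) : Prop :=
  ∀ γ : Fin s →₀ ℕ, (γ.degree : ℤ) < m → coeff γ F = 0

/-- linear substitution -/
def lin (M : Matrix (Fin s) (Fin s) ℝ) : MvPolynomial (Fin s) ℝ →ₐ[ℝ] MvPolynomial (Fin s) ℝ :=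
  aeval (fun k => ∑ i, C (M k i) * X i)

/-- translation substitution -/
def trans (p : Fin s → ℝ) : MvPolynomial (Fin s) ℝ →ₐ[ℝ] MvPolynomial (Fin s) ℝ :=
  aeval (fun k => X k + C (p k))

lemma van_lin {F : MvPolynomial (Fin s) ℝ} {m : ℤ} (h : Van F m)
    (M : Matrix (Fin s) (Fin s) ℝ) : Van (lin M F) m := by
  intro δ hδ
  rw [F.as_sum, map_sum, coeff_sum]
  refine Finset.sum_eq_zero fun γ hγ => ?_
  have h1 : IsHomogeneous (lin M (monomial γ (coeff γ F))) (1 * γ.degree) := by
    unfold lin
    refine IsHomogeneous.aeval (isHomogeneous_monomial _ rfl) _ (fun k => ?_)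
    refine IsHomogeneous.sum _ _ _ (fun i _ => ?_)
    exact (isHomogeneous_X ℝ i).C_mul (M k i)
  refine h1.coeff_eq_zero ?_
  intro h2
  rw [one_mul] at h2
  have h3 : coeff γ F ≠ 0 := by simpa [mem_support_iff] using hγ
  exact h3 (h γ (by rw [← h2]; exact hδ))

lemma lin_lin (M N : Matrix (Fin s) (Fin s) ℝ) (F : MvPolynomial (Fin s) ℝ) :
    lin N (lin M F) = lin (M * N) F := by
  have : (lin N).comp (lin M) = lin (M * N) := by
    apply algHom_ext
    intro k
    simp only [AlgHom.comp_apply, lin, aeval_X, map_sum, map_mul, algHom_C, algebraMap_eq,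
      Matrix.mul_apply, Finset.mul_sum, Finset.sum_mul]
    rw [Finset.sum_comm]
    refine Finset.sum_congr rfl fun i _ => Finset.sum_congr rfl fun j _ => ?_
    ring
  rw [← this]; rfl

lemma lin_one (F : MvPolynomial (Fin s) ℝ) : lin (1 : Matrix (Fin s) (Fin s) ℝ) F = F := by
  have : lin (1 : Matrix (Fin s) (Fin s) ℝ) = AlgHom.id ℝ _ := by
    apply algHom_ext
    intro k
    simp only [lin, aeval_X, AlgHom.id_apply, Matrix.one_apply]
    rw [Finset.sum_eq_single k]
    · simp
    · intro b _ hb; simp [hb.symm]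
    · simp
  rw [this]; rfl

/-- Extract the univariate polynomial in the variable `i`, the other exponents being those
of `γ`. -/
def ext (i : Fin s) (γ : Fin s →₀ ℕ) : MvPolynomial (Fin s) ℝ →ₗ[ℝ] Polynomial ℝ :=
  (basisMonomials (Fin s) ℝ).constr ℝ
    (fun δ => if δ.erase i = γ.erase i then Polynomial.monomial (δ i) 1 else 0)

lemma ext_monomial (i : Fin s) (γ δ : Fin s →₀ ℕ) (a : ℝ) :
    ext i γ (monomial δ a) = if δ.erase i = γ.erase i then Polynomial.monomial (δ i) a else 0 := by
  have h1 : monomial δ a = a • basisMonomials (Fin s) ℝ δ := by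
    rw [coe_basisMonomials, smul_monomial, smul_eq_mul, mul_one]
  rw [h1, map_smul, ext, Module.Basis.constr_basis]
  split_ifs
  · rw [Polynomial.smul_monomial, smul_eq_mul, mul_one]
  · simp

lemma erase_eq_iff (i : Fin s) (γ δ : Fin s →₀ ℕ) (c : ℕ) :
    (δ.erase i = γ.erase i ∧ δ i = c) ↔ δ = γ.update i c := by
  constructor
  · rintro ⟨h1, h2⟩
    ext j
    by_cases hj : j = i
    · subst hj; simp [h2]
    · have := DFunLike.congr_fun h1 j
      rw [Finsupp.erase_ne hj, Finsupp.erase_ne hj] at this
      simp [hj, this]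
  · rintro rfl
    constructor
    · ext j
      by_cases hj : j = i
      · subst hj; simp
      · rw [Finsupp.erase_ne hj, Finsupp.erase_ne hj]; simp [hj]
    · simp

lemma coeff_ext (i : Fin s) (γ : Fin s →₀ ℕ) (F : MvPolynomial (Fin s) ℝ) (c : ℕ) :
    (ext i γ F).coeff c = coeff (γ.update i c) F := by
  induction F using MvPolynomial.induction_on' with
  | monomial δ a =>
    rw [ext_monomial, coeff_monomial]
    by_cases h : δ = γ.update i c
    · have h2 := (erase_eq_iff i γ δ c).2 h
      rw [if_pos h2.1, if_pos h, Polynomial.coeff_monomial, if_pos h2.2]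
    · rw [if_neg h]
      split_ifs with h3
      · rw [Polynomial.coeff_monomial, if_neg]
        intro h4
        exact h ((erase_eq_iff i γ δ c).1 ⟨h3, h4⟩)
      · simp
  | add p q hp hq => rw [map_add, Polynomial.coeff_add, hp, hq, coeff_add]

lemma ext_X_mul (i : Fin s) (γ : Fin s →₀ ℕ) (F : MvPolynomial (Fin s) ℝ) :
    ext i γ (X i * F) = Polynomial.X * ext i γ F := by
  induction F using MvPolynomial.induction_on' with
  | monomial δ a =>
    have h1 : (X i : MvPolynomial (Fin s) ℝ) * monomial δ a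
        = monomial (Finsupp.single i 1 + δ) a := by
      rw [X, monomial_mul, one_mul]
    rw [h1, ext_monomial, ext_monomial]
    have h2 : (Finsupp.single i 1 + δ).erase i = δ.erase i := by
      rw [Finsupp.erase_add, Finsupp.erase_single, zero_add]
    rw [h2]
    split_ifs
    · rw [Polynomial.X_mul_monomial, Finsupp.add_apply, Finsupp.single_eq_same, add_comm]
    · simp
  | add p q hp hq => rw [mul_add, map_add, hp, hq, map_add, mul_add]

lemma ext_C_mul (i : Fin s) (γ : Fin s →₀ ℕ) (a : ℝ) (F : MvPolynomial (Fin s) ℝ) :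
    ext i γ (C a * F) = Polynomial.C a * ext i γ F := by
  rw [← smul_eq_C_mul, map_smul, Polynomial.smul_eq_C_mul]

lemma ext_pow_mul (i : Fin s) (γ : Fin s →₀ ℕ) (y : ℝ) (n : ℕ) (F : MvPolynomial (Fin s) ℝ) :
    ext i γ ((X i + C y) ^ n * F) = (Polynomial.X + Polynomial.C y) ^ n * ext i γ F := by
  induction n with
  | zero => simp
  | succ n ih =>
    rw [pow_succ', mul_assoc, add_mul, map_add, ext_X_mul, ext_C_mul, ih, pow_succ']
    ring

/-- translation in the coordinate `i` -/
def tr1 (i : Fin s) (y : ℝ) : MvPolynomial (Fin s) ℝ →ₐ[ℝ] MvPolynomial (Fin s) ℝ :=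
  aeval (fun k => X k + C (if k = i then y else 0))

lemma tr1_monomial (i : Fin s) (y : ℝ) (δ : Fin s →₀ ℕ) (a : ℝ) :
    tr1 i y (monomial δ a) = (X i + C y) ^ (δ i) * monomial (δ.erase i) a := by
  rw [tr1, aeval_monomial]
  have h1 : (δ.prod fun k e => (X k + C (if k = i then y else 0) :
      MvPolynomial (Fin s) ℝ) ^ e) = ∏ k, (X k + C (if k = i then y else 0)) ^ (δ k) := by
    apply Finsupp.prod_fintype
    intro k; simp
  rw [h1, ← Finset.mul_prod_erase Finset.univ _ (Finset.mem_univ i)]
  have h2 : monomial (δ.erase i) a = C a * ∏ k ∈ Finset.univ.erase i,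
      (X k : MvPolynomial (Fin s) ℝ) ^ (δ k) := by
    rw [monomial_eq]
    congr 1
    rw [Finsupp.prod_fintype _ _ (by intro k; simp),
      ← Finset.mul_prod_erase Finset.univ _ (Finset.mem_univ i)]
    simp only [Finsupp.erase_same, pow_zero, one_mul]
    refine Finset.prod_congr rfl fun k hk => ?_
    rw [Finsupp.erase_ne (Finset.ne_of_mem_erase hk)]
  rw [h2]
  have h3 : ∏ k ∈ Finset.univ.erase i, (X k + C (if k = i then y else 0) :
      MvPolynomial (Fin s) ℝ) ^ (δ k) = ∏ k ∈ Finset.univ.erase i, (X k) ^ (δ k) := by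
    refine Finset.prod_congr rfl fun k hk => ?_
    rw [if_neg (Finset.ne_of_mem_erase hk)]; simp
  rw [h3, if_pos rfl, algebraMap_eq]
  ring

lemma ext_tr1 (i : Fin s) (γ : Fin s →₀ ℕ) (y : ℝ) (F : MvPolynomial (Fin s) ℝ) :
    ext i γ (tr1 i y F) = Polynomial.taylor y (ext i γ F) := by
  induction F using MvPolynomial.induction_on' with
  | monomial δ a =>
    rw [tr1_monomial, ext_pow_mul, ext_monomial, ext_monomial]
    have h0 : (δ.erase i).erase i = δ.erase i := by
      ext j
      by_cases hj : j = i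
      · subst hj; simp
      · rw [Finsupp.erase_ne hj]
    rw [h0]
    split_ifs
    · rw [Finsupp.erase_same, Polynomial.taylor_monomial, Polynomial.monomial_zero_left]
      ring
    · simp
  | add p q hp hq => rw [map_add, map_add, hp, hq, map_add, map_add]

lemma trans_line (p p' : Fin s → ℝ) (M : Matrix (Fin s) (Fin s) ℝ) (i : Fin s) (y : ℝ)
    (hp : ∀ k, p' k = p k + y * M k i) (f : MvPolynomial (Fin s) ℝ) :
    lin M (trans p' f) = tr1 i y (lin M (trans p f)) := by
  have : (lin M).comp (trans p') = ((tr1 i y).comp (lin M)).comp (trans p) := by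
    apply algHom_ext
    intro k
    simp only [AlgHom.comp_apply, lin, trans, tr1, aeval_X, map_add, map_sum, map_mul, algHom_C,
      algebraMap_eq, hp, mul_add, Finset.sum_add_distrib]
    have : ∑ x, C (M k x) * (C (if x = i then y else 0) : MvPolynomial (Fin s) ℝ)
        = C y * C (M k i) := by
      rw [Finset.sum_eq_single i]
      · rw [if_pos rfl, mul_comm]
      · intro b _ hb; rw [if_neg hb]; simp
      · simp
    rw [this]
    ring
  exact DFunLike.congr_fun this f

lemma natDegree_ext_le {N : ℕ} (i : Fin s) (γ : Fin s →₀ ℕ) {F : MvPolynomial (Fin s) ℝ}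
    (hF : F.totalDegree ≤ N) : (ext i γ F).natDegree ≤ N := by
  rw [Polynomial.natDegree_le_iff_coeff_eq_zero]
  intro c hc
  rw [coeff_ext]
  apply coeff_eq_zero_of_totalDegree_lt
  calc F.totalDegree ≤ N := hF
    _ < c := hc
    _ ≤ _ := by
      have h1 : c = (γ.update i c) i := by simp
      rw [← Finsupp.degree_apply]
      conv_lhs => rw [h1]
      exact Finsupp.le_degree i _

lemma totalDegree_aeval_le {N : ℕ} (g : Fin s → MvPolynomial (Fin s) ℝ)
    (hg : ∀ k, (g k).totalDegree ≤ 1) {F : MvPolynomial (Fin s) ℝ} (hF : F.totalDegree ≤ N) :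
    (aeval g F).totalDegree ≤ N := by
  rw [F.as_sum, map_sum]
  refine totalDegree_finsetSum_le fun δ hδ => ?_
  rw [aeval_monomial, algebraMap_eq]
  refine (totalDegree_mul _ _).trans ?_
  rw [totalDegree_C, zero_add]
  refine (totalDegree_finsetProd _ _).trans ?_
  calc ∑ i ∈ δ.support, (g i ^ δ i).totalDegree ≤ ∑ i ∈ δ.support, δ i := by
        refine Finset.sum_le_sum fun i _ => (totalDegree_pow _ _).trans ?_
        calc δ i * (g i).totalDegree ≤ δ i * 1 := Nat.mul_le_mul_left _ (hg i)
          _ = δ i := mul_one _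
    _ ≤ F.totalDegree := le_totalDegree hδ
    _ ≤ N := hF

lemma totalDegree_lin_le {N : ℕ} (M : Matrix (Fin s) (Fin s) ℝ) {F : MvPolynomial (Fin s) ℝ}
    (hF : F.totalDegree ≤ N) : (lin M F).totalDegree ≤ N := by
  refine totalDegree_aeval_le _ (fun k => ?_) hF
  refine totalDegree_finsetSum_le fun i _ => ?_
  refine (totalDegree_mul _ _).trans ?_
  rw [totalDegree_C, totalDegree_X]

lemma totalDegree_trans_le {N : ℕ} (p : Fin s → ℝ) {F : MvPolynomial (Fin s) ℝ}
    (hF : F.totalDegree ≤ N) : (trans p F).totalDegree ≤ N := by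
  refine totalDegree_aeval_le _ (fun k => ?_) hF
  refine (totalDegree_add _ _).trans ?_
  rw [totalDegree_C, totalDegree_X]; simp

lemma trans_eq_zero {p : Fin s → ℝ} {F : MvPolynomial (Fin s) ℝ} (h : trans p F = 0) : F = 0 := by
  have h1 : trans (-p) (trans p F) = F := by
    have : (trans (-p)).comp (trans p) = AlgHom.id ℝ _ := by
      apply algHom_ext
      intro k
      simp [trans]
    rw [← AlgHom.comp_apply, this]; rfl
  rw [← h1, h, map_zero]

open Polynomial in
lemma dvd_of_coeff_taylor {g : Polynomial ℝ} {y : ℝ} {b : ℕ}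
    (h : ∀ c < b, (Polynomial.taylor y g).coeff c = 0) :
    (Polynomial.X - Polynomial.C y) ^ b ∣ g := by
  have h1 : (Polynomial.X : Polynomial ℝ) ^ b ∣ Polynomial.taylor y g := by
    rw [Polynomial.X_pow_dvd_iff]; exact h
  obtain ⟨k, hk⟩ := h1
  have h2 : Polynomial.taylor (-y) (Polynomial.taylor y g) = g := by
    rw [Polynomial.taylor_taylor, neg_add_cancel, Polynomial.taylor_zero]
  rw [hk, Polynomial.taylor_mul, Polynomial.taylor_X_pow] at h2
  refine ⟨Polynomial.taylor (-y) k, ?_⟩
  rw [← h2, Polynomial.C_neg, sub_eq_add_neg]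

lemma eq_zero_of_many_roots {J : Type*} {g : Polynomial ℝ} {N : ℕ} (hg : g.natDegree ≤ N)
    (S : Finset J) (y : J → ℝ) (hy : Set.InjOn y S) (b : J → ℕ)
    (h : ∀ j ∈ S, (Polynomial.X - Polynomial.C (y j)) ^ (b j) ∣ g)
    (hb : N + 1 ≤ ∑ j ∈ S, b j) : g = 0 := by
  by_contra h0
  have h1 : (∏ j ∈ S, (Polynomial.X - Polynomial.C (y j)) ^ (b j)) ∣ g := by
    apply Finset.prod_dvd_of_coprime
    · intro i hi j hj hij
      refine IsCoprime.pow ?_
      exact Polynomial.isCoprime_X_sub_C_of_isUnit_sub
        (sub_ne_zero.2 (fun e => hij (hy hi hj e))).isUnit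
    · exact h
  have h2 := Polynomial.natDegree_le_of_dvd h1 h0
  rw [Polynomial.natDegree_prod _ _ (fun j _ => pow_ne_zero _ (Polynomial.X_sub_C_ne_zero _))] at h2
  simp only [Polynomial.natDegree_pow, Polynomial.natDegree_X_sub_C, mul_one] at h2
  omega

/-- The vanishing lemma (handicap argument). -/
theorem vanish {J L : Type*} [Fintype J] [Nonempty J] (p : J → Fin s → ℝ)
    (hp : Function.Injective p) (u : L → Fin s → ℝ) (inc : J → L → Prop)
    [∀ ℓ, DecidablePred (fun j => inc j ℓ)]
    (hline : ∀ ℓ j j', inc j ℓ → inc j' ℓ → ∃ t : ℝ, p j' = p j + t • u ℓ)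
    (α : J → ℤ) (h : L → ℤ) (τ : J → Fin s → L) (hτ : ∀ j i, inc j (τ j i))
    (hli : ∀ j, LinearIndependent ℝ (fun i => u (τ j i))) (N : ℕ)
    (hsum : ∀ j i, N + 1 ≤ ∑ j' with inc j' (τ j i), (h (τ j i) + α j').toNat)
    (f : MvPolynomial (Fin s) ℝ) (hf : f.totalDegree ≤ N)
    (hc : ∀ j (γ : Fin s →₀ ℕ), (∀ i, γ i < (h (τ j i) + α j).toNat) →
      coeff γ (lin (Matrix.of fun k i => u (τ j i) k) (trans (p j) f)) = 0) : f = 0 := by
  classical
  set M : J → Matrix (Fin s) (Fin s) ℝ := fun j => Matrix.of fun k i => u (τ j i) k with hM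
  have hMu : ∀ j, IsUnit (M j).det := by
    intro j
    have h1 : LinearIndependent ℝ (M j).col := hli j
    have := Matrix.linearIndependent_cols_iff_isUnit.1 h1
    exact (Matrix.isUnit_iff_isUnit_det _).1 this
  -- level induction
  have key : ∀ n : ℕ, ∀ j, Van (trans (p j) f) (n - (∑ j', |α j'|) + α j) := by
    intro n
    induction n with
    | zero =>
      intro j γ hγ
      exfalso
      have h1 : |α j| ≤ ∑ j', |α j'| :=
        Finset.single_le_sum (f := fun j' => |α j'|) (fun _ _ => abs_nonneg _) (Finset.mem_univ j)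
      have h2 := le_abs_self (α j)
      have h3 : (0 : ℤ) ≤ (γ.degree : ℤ) := Int.natCast_nonneg _
      simp only [Nat.cast_zero] at hγ
      omega
    | succ n ih =>
      intro j
      set A := ∑ j', |α j'|
      have h1 : Van (lin (M j) (trans (p j) f)) ((n + 1 : ℕ) - A + α j) := by
        intro γ hγ
        by_cases hlt : (γ.degree : ℤ) < n - A + α j
        · exact van_lin (ih j) (M j) γ hlt
        have hdeg : (γ.degree : ℤ) = n - A + α j := by push_cast at hγ; omega
        by_cases hall : ∀ i, γ i < (h (τ j i) + α j).toNat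
        · exact hc j γ hall
        push Not at hall
        obtain ⟨i, hi⟩ := hall
        set ℓ := τ j i with hℓ
        set g := ext i γ (lin (M j) (trans (p j) f)) with hg
        have hgdeg : g.natDegree ≤ N :=
          natDegree_ext_le i γ (totalDegree_lin_le _ (totalDegree_trans_le _ hf))
        have hyex : ∀ j' : J, ∃ t : ℝ, inc j' ℓ → p j' = p j + t • u ℓ := by
          intro j'
          by_cases hj' : inc j' ℓ
          · obtain ⟨t, ht⟩ := hline ℓ j j' (hτ j i) hj'
            exact ⟨t, fun _ => ht⟩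
          · exact ⟨0, fun h => absurd h hj'⟩
        choose y hy using hyex
        have hg0 : g = 0 := by
          apply eq_zero_of_many_roots hgdeg (Finset.univ.filter fun j' => inc j' ℓ) y
            (b := fun j' => (h ℓ + α j').toNat)
          · intro a ha b hb hab
            have ha' : inc a ℓ := by simpa using ha
            have hb' : inc b ℓ := by simpa using hb
            apply hp
            rw [hy a ha', hy b hb', hab]
          · intro j' hj'
            have hj'' : inc j' ℓ := by simpa using hj'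
            apply dvd_of_coeff_taylor
            intro c hcb
            rw [hg, ← ext_tr1, ← trans_line (p j) (p j') (M j) i (y j') (fun k => by
              have := congrFun (hy j' hj'') k
              simpa [hM, hℓ] using this), coeff_ext]
            apply van_lin (ih j') (M j)
            have h5 : ((γ.update i c).degree : ℤ) = γ.degree - γ i + c := by
              have e1 : γ.update i c = γ.erase i + Finsupp.single i c := by
                rw [Finsupp.update_eq_erase_add_single]
              have e2 : γ = γ.erase i + Finsupp.single i (γ i) :=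
                (Finsupp.erase_add_single i γ).symm
              rw [e1, map_add]
              have e3 : γ.degree = (γ.erase i).degree + γ i := by
                conv_lhs => rw [e2, map_add]
                simp
              rw [e3]; push_cast; simp
            rw [h5, hdeg]
            have h6 : (c : ℤ) < h ℓ + α j' := by
              have := Int.lt_toNat.1 hcb
              exact this
            have h7 : h ℓ + α j ≤ γ i := Int.toNat_le.1 hi
            omega
          · exact hsum j i
        have : coeff γ (lin (M j) (trans (p j) f)) = g.coeff (γ i) := by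
          rw [hg, coeff_ext]
          congr 1
          simp
        rw [this, hg0, Polynomial.coeff_zero]
      have h2 := van_lin h1 (M j)⁻¹
      rwa [lin_lin, Matrix.mul_nonsing_inv _ (hMu j), lin_one] at h2
  obtain ⟨j⟩ := ‹Nonempty J›
  apply trans_eq_zero (p := p j)
  ext γ
  rw [coeff_zero]
  apply key (γ.degree + 1 + (∑ j', |α j'|).toNat + |α j|.toNat) j γ
  have h1 : (0 : ℤ) ≤ ∑ j', |α j'| := Finset.sum_nonneg fun _ _ => abs_nonneg _
  have h2 : (0 : ℤ) ≤ |α j| := abs_nonneg _
  have h3 := neg_abs_le (α j)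
  push_cast
  rw [Int.toNat_of_nonneg h1, Int.toNat_of_nonneg h2]
  omega

/-- exponent vector -/
def expo {q : ℕ} (e : Fin s → Fin (q + 1)) : Fin s →₀ ℕ :=
  Finsupp.equivFunOnFinite.symm (fun i => (e i : ℕ))

lemma expo_inj {q : ℕ} : Function.Injective (expo (s := s) (q := q)) := by
  intro e e' h
  funext i
  have := DFunLike.congr_fun h i
  simp only [expo, Finsupp.equivFunOnFinite_symm_apply_apply] at this
  exact Fin.ext this

/-- polynomial with given coefficients in a box -/
def boxPoly (q : ℕ) : ((Fin s → Fin (q + 1)) → ℝ) →ₗ[ℝ] MvPolynomial (Fin s) ℝ :=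
  ∑ e : Fin s → Fin (q + 1), (monomial (expo e)).comp (LinearMap.proj e)

lemma boxPoly_apply (q : ℕ) (c : (Fin s → Fin (q + 1)) → ℝ) :
    boxPoly q c = ∑ e : Fin s → Fin (q + 1), monomial (expo e) (c e) := by
  simp [boxPoly, LinearMap.sum_apply]

lemma coeff_boxPoly (q : ℕ) (c : (Fin s → Fin (q + 1)) → ℝ) (e : Fin s → Fin (q + 1)) :
    coeff (expo e) (boxPoly q c) = c e := by
  rw [boxPoly_apply, coeff_sum, Finset.sum_eq_single e]
  · rw [coeff_monomial, if_pos rfl]
  · intro b _ hb
    rw [coeff_monomial, if_neg]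
    exact fun h => hb (expo_inj h)
  · simp

lemma totalDegree_boxPoly (q : ℕ) (c : (Fin s → Fin (q + 1)) → ℝ) :
    (boxPoly q c).totalDegree ≤ s * q := by
  rw [boxPoly_apply]
  refine totalDegree_finsetSum_le fun e _ => ?_
  refine (totalDegree_monomial_le _ _).trans ?_
  rw [Finsupp.sum_fintype _ _ (fun _ => rfl)]
  calc ∑ i, expo e i ≤ ∑ _i : Fin s, q := Finset.sum_le_sum fun i _ => by
        simp only [expo, Finsupp.equivFunOnFinite_symm_apply_apply]
        exact Nat.lt_succ_iff.1 (e i).2
    _ = s * q := by simp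

/-- Parameter counting combined with the vanishing lemma. -/
theorem poly_count {J L : Type*} [Fintype J] [Nonempty J] (p : J → Fin s → ℝ)
    (hp : Function.Injective p) (u : L → Fin s → ℝ) (inc : J → L → Prop)
    [∀ ℓ, DecidablePred (fun j => inc j ℓ)]
    (hline : ∀ ℓ j j', inc j ℓ → inc j' ℓ → ∃ t : ℝ, p j' = p j + t • u ℓ)
    (α : J → ℤ) (h : L → ℤ) (τ : J → Fin s → L) (hτ : ∀ j i, inc j (τ j i))
    (hli : ∀ j, LinearIndependent ℝ (fun i => u (τ j i))) (q : ℕ)
    (hsum : ∀ j i, s * q + 1 ≤ ∑ j' with inc j' (τ j i), (h (τ j i) + α j').toNat) :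
    (q + 1) ^ s ≤ ∑ j, ∏ i, (h (τ j i) + α j).toNat := by
  classical
  by_contra hcon
  push Not at hcon
  set b : J → Fin s → ℕ := fun j i => (h (τ j i) + α j).toNat with hb
  let Θ : ((Fin s → Fin (q + 1)) → ℝ) →ₗ[ℝ] ((j : J) → ((i : Fin s) → Fin (b j i)) → ℝ) :=
    LinearMap.pi fun j => LinearMap.pi fun γ =>
      (lcoeff ℝ (Finsupp.equivFunOnFinite.symm (fun i => (γ i : ℕ)))).comp
        ((lin (Matrix.of fun k i => u (τ j i) k)).toLinearMap.comp
          ((trans (p j)).toLinearMap.comp (boxPoly q)))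
  have hker : LinearMap.ker Θ ≠ ⊥ := by
    apply LinearMap.ker_ne_bot_of_finrank_lt
    have e1 : Module.finrank ℝ ((Fin s → Fin (q + 1)) → ℝ) = (q + 1) ^ s := by
      rw [Module.finrank_fintype_fun_eq_card]; simp
    have e2 : Module.finrank ℝ ((j : J) → ((i : Fin s) → Fin (b j i)) → ℝ)
        = ∑ j, ∏ i, b j i := by
      rw [Module.finrank_pi_fintype]
      refine Finset.sum_congr rfl fun j _ => ?_
      rw [Module.finrank_fintype_fun_eq_card]; simp
    rw [e1, e2]
    exact hcon
  obtain ⟨c, hc, hc0⟩ := (Submodule.ne_bot_iff _).1 hker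
  apply hc0
  have hf0 : boxPoly q c = 0 := by
    refine vanish p hp u inc hline α h τ hτ hli (s * q) hsum _ (totalDegree_boxPoly q c) ?_
    intro j γ hγ
    have h1 := congrFun (congrFun (LinearMap.mem_ker.1 hc) j) (fun i => ⟨γ i, hγ i⟩)
    simp only [Θ, LinearMap.pi_apply, LinearMap.comp_apply, AlgHom.toLinearMap_apply,
      lcoeff_apply, Pi.zero_apply] at h1
    convert h1 using 2
    ext i
    simp
  funext e
  rw [← coeff_boxPoly q c e, hf0, coeff_zero, Pi.zero_apply]

end

end Pool.Agent.H27.Content
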